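import Pool.Agent.Helper92.Weak.Torus5

set_option autoImplicit false

/-!
# Project KN, geometry: the action of `G_a^r × G_m^s` on `L = k(x₁, ..., x_r, y₁, ..., y_s)`
-/

namespace Pool.Agent.Helper92.KN

open Pool.Agent.Helper92.Weak MvPolynomial

variable {k L : Type*} [Field k] [Field L] [Algebra k L] {r s : ℕ}

/-- All coordinates. -/
def coord (x : Fin r → L) (y : Fin s → L) : Fin (r + s) → L := Fin.append x y

@[simp] lemma coord_left (x : Fin r → L) (y : Fin s → L) (i : Fin r) :
    coord x y (Fin.castAdd s i) = x i := by simp [coord]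

@[simp] lemma coord_right (x : Fin r → L) (y : Fin s → L) (j : Fin s) :
    coord x y (Fin.natAdd r j) = y j := by simp [coord]

/-- The action on polynomials: `x_i ↦ x_i + a_i`, `y_j ↦ b_j y_j`. -/
noncomputable def pAct (a : Fin r → k) (b : Fin s → kˣ) :
    MvPolynomial (Fin (r + s)) k →ₐ[k] MvPolynomial (Fin (r + s)) k :=
  aeval (Fin.append (fun i => X (Fin.castAdd s i) + C (a i))
    (fun j => C ((b j : kˣ) : k) * X (Fin.natAdd r j)))

@[simp] lemma pAct_left (a : Fin r → k) (b : Fin s → kˣ) (i : Fin r) :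
    pAct a b (X (Fin.castAdd s i)) = X (Fin.castAdd s i) + C (a i) := by simp [pAct]

@[simp] lemma pAct_right (a : Fin r → k) (b : Fin s → kˣ) (j : Fin s) :
    pAct a b (X (Fin.natAdd r j)) = C ((b j : kˣ) : k) * X (Fin.natAdd r j) := by simp [pAct]

lemma algHom_ext_coord {A : Type*} [CommRing A] [Algebra k A]
    {φ ψ : MvPolynomial (Fin (r + s)) k →ₐ[k] A}
    (h1 : ∀ i : Fin r, φ (X (Fin.castAdd s i)) = ψ (X (Fin.castAdd s i)))
    (h2 : ∀ j : Fin s, φ (X (Fin.natAdd r j)) = ψ (X (Fin.natAdd r j))) : φ = ψ := by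
  apply MvPolynomial.algHom_ext
  intro l
  refine Fin.addCases (fun i => h1 i) (fun j => h2 j) l

lemma pAct_pAct (a a' : Fin r → k) (b b' : Fin s → kˣ) (p : MvPolynomial (Fin (r + s)) k) :
    pAct a b (pAct a' b' p) = pAct (a + a') (b * b') p := by
  have h : (pAct a b).comp (pAct a' b') = pAct (a + a') (b * b') := by
    apply algHom_ext_coord
    · intro i
      simp only [AlgHom.comp_apply, pAct_left, map_add, algHom_C, algebraMap_eq, Pi.add_apply]
      ring
    · intro j
      simp only [AlgHom.comp_apply, pAct_right, map_mul, algHom_C, algebraMap_eq, Pi.mul_apply,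
        Units.val_mul]
      ring
  exact DFunLike.congr_fun h p

lemma pAct_zero (p : MvPolynomial (Fin (r + s)) k) :
    pAct (0 : Fin r → k) (1 : Fin s → kˣ) p = p := by
  have h : pAct (0 : Fin r → k) (1 : Fin s → kˣ) = AlgHom.id k _ := by
    apply algHom_ext_coord
    · intro i; simp
    · intro j; simp
  exact DFunLike.congr_fun h p

lemma pAct_neg (a : Fin r → k) (b : Fin s → kˣ) (p : MvPolynomial (Fin (r + s)) k) :
    pAct (-a) b⁻¹ (pAct a b p) = p := by
  rw [pAct_pAct, neg_add_cancel, inv_mul_cancel, pAct_zero]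

lemma pAct_neg' (a : Fin r → k) (b : Fin s → kˣ) (p : MvPolynomial (Fin (r + s)) k) :
    pAct a b (pAct (-a) b⁻¹ p) = p := by
  rw [pAct_pAct, add_neg_cancel, mul_inv_cancel, pAct_zero]

lemma pAct_dvd (a : Fin r → k) (b : Fin s → kˣ) {p q : MvPolynomial (Fin (r + s)) k} :
    pAct a b p ∣ pAct a b q ↔ p ∣ q := by
  constructor
  · intro h
    have h2 := map_dvd (pAct (-a) b⁻¹) h
    rwa [pAct_neg, pAct_neg] at h2
  · exact map_dvd (pAct a b)

lemma pAct_prime (a : Fin r → k) (b : Fin s → kˣ) {p : MvPolynomial (Fin (r + s)) k}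
    (hp : Prime p) : Prime (pAct a b p) := by
  refine ⟨?_, ?_, ?_⟩
  · intro h
    apply hp.ne_zero
    rw [← pAct_neg a b p, h, map_zero]
  · intro h
    apply hp.not_isUnit
    rw [← pAct_neg a b p]
    exact h.map _
  · intro u v h
    rw [← pAct_neg' a b u, ← pAct_neg' a b v, ← map_mul, pAct_dvd] at h
    rcases hp.dvd_or_dvd h with h1 | h1
    · left
      rw [← pAct_neg' a b u, pAct_dvd]
      exact h1
    · right
      rw [← pAct_neg' a b v, pAct_dvd]
      exact h1

section act

variable {x : Fin r → L} {y : Fin s → L}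

lemma algHom_ext_field (h : IsTorus k (coord x y)) {φ ψ : L →ₐ[k] L}
    (h1 : ∀ i, φ (x i) = ψ (x i)) (h2 : ∀ j, φ (y j) = ψ (y j)) : φ = ψ := by
  apply algHom_ext_torus h
  intro l
  refine Fin.addCases (fun i => ?_) (fun j => ?_) l
  · rw [coord_left]; exact h1 i
  · rw [coord_right]; exact h2 j

lemma exists_actHom (h : IsTorus k (coord x y)) (a : Fin r → k) (b : Fin s → kˣ) :
    ∃ σ : L →ₐ[k] L, (∀ i, σ (x i) = x i + algebraMap k L (a i)) ∧
      ∀ j, σ (y j) = algebraMap k L (b j) * y j := by
  let _ := polyAlg k (coord x y)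
  have := isFractionRing_poly h
  have : IsScalarTower k (MvPolynomial (Fin (r + s)) k) L := by
    apply IsScalarTower.of_algebraMap_eq
    intro c
    change _ = aeval (coord x y) (algebraMap k (MvPolynomial (Fin (r + s)) k) c)
    simp
  have hinj : Function.Injective ((aeval (coord x y) : MvPolynomial (Fin (r + s)) k →ₐ[k] L).comp
      (pAct a b)) := by
    have hi : Function.Injective (aeval (coord x y) : MvPolynomial (Fin (r + s)) k →ₐ[k] L) :=
      h.indep
    intro p q hpq
    have h2 : pAct a b p = pAct a b q := hi hpq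
    rw [← pAct_neg a b p, h2, pAct_neg]
  have key : ∀ l, (IsFractionRing.liftAlgHom hinj : L →ₐ[k] L) (coord x y l) =
      aeval (coord x y) (pAct a b (X l)) := by
    intro l
    have h1 : coord x y l = algebraMap (MvPolynomial (Fin (r + s)) k) L (X l) := by
      change _ = aeval (coord x y) (X l)
      simp
    conv_lhs => rw [h1]
    rw [IsFractionRing.liftAlgHom_apply, IsFractionRing.lift_algebraMap]
    rfl
  refine ⟨IsFractionRing.liftAlgHom hinj, fun i => ?_, fun j => ?_⟩
  · have h1 := key (Fin.castAdd s i)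
    rw [coord_left] at h1
    rw [h1, pAct_left]
    simp
  · have h1 := key (Fin.natAdd r j)
    rw [coord_right] at h1
    rw [h1, pAct_right]
    simp

lemma exists_act (h : IsTorus k (coord x y)) (a : Fin r → k) (b : Fin s → kˣ) :
    ∃ σ : L ≃ₐ[k] L, (∀ i, σ (x i) = x i + algebraMap k L (a i)) ∧
      ∀ j, σ (y j) = algebraMap k L (b j) * y j := by
  obtain ⟨σ, hσ1, hσ2⟩ := exists_actHom h a b
  obtain ⟨τ, hτ1, hτ2⟩ := exists_actHom h (-a) b⁻¹
  refine ⟨AlgEquiv.ofAlgHom σ τ ?_ ?_, hσ1, hσ2⟩
  · apply algHom_ext_field h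
    · intro i
      rw [AlgHom.comp_apply, hτ1, map_add, hσ1, AlgHom.commutes, AlgHom.id_apply]
      simp
    · intro j
      rw [AlgHom.comp_apply, hτ2, map_mul, hσ2, AlgHom.commutes, AlgHom.id_apply, ← mul_assoc,
        ← map_mul]
      simp
  · apply algHom_ext_field h
    · intro i
      rw [AlgHom.comp_apply, hσ1, map_add, hτ1, AlgHom.commutes, AlgHom.id_apply]
      simp
    · intro j
      rw [AlgHom.comp_apply, hσ2, map_mul, hτ2, AlgHom.commutes, AlgHom.id_apply, ← mul_assoc,
        ← map_mul]
      simp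

/-- The automorphism `x_i ↦ x_i + a_i`, `y_j ↦ b_j y_j`. -/
noncomputable def act (h : IsTorus k (coord x y)) (a : Fin r → k) (b : Fin s → kˣ) : L ≃ₐ[k] L :=
  (exists_act h a b).choose

lemma act_x (h : IsTorus k (coord x y)) (a : Fin r → k) (b : Fin s → kˣ) (i : Fin r) :
    act h a b (x i) = x i + algebraMap k L (a i) := (exists_act h a b).choose_spec.1 i

lemma act_y (h : IsTorus k (coord x y)) (a : Fin r → k) (b : Fin s → kˣ) (j : Fin s) :
    act h a b (y j) = algebraMap k L (b j) * y j := (exists_act h a b).choose_spec.2 j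

lemma act_const (h : IsTorus k (coord x y)) (a : Fin r → k) (b : Fin s → kˣ) (c : k) :
    act h a b (algebraMap k L c) = algebraMap k L c := (act h a b).commutes c

lemma algEquiv_ext_field (h : IsTorus k (coord x y)) {φ ψ : L ≃ₐ[k] L}
    (h1 : ∀ i, φ (x i) = ψ (x i)) (h2 : ∀ j, φ (y j) = ψ (y j)) : φ = ψ := by
  have h3 : (φ : L →ₐ[k] L) = (ψ : L →ₐ[k] L) := algHom_ext_field h h1 h2
  ext z
  exact DFunLike.congr_fun h3 z

lemma act_act (h : IsTorus k (coord x y)) (a a' : Fin r → k) (b b' : Fin s → kˣ) (z : L) :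
    act h a b (act h a' b' z) = act h (a + a') (b * b') z := by
  have : (act h a' b').trans (act h a b) = act h (a + a') (b * b') := by
    apply algEquiv_ext_field h
    · intro i
      rw [AlgEquiv.trans_apply, act_x, act_x, map_add, act_x, act_const, Pi.add_apply, map_add]
      ring
    · intro j
      rw [AlgEquiv.trans_apply, act_y, act_y, map_mul, act_y, act_const, Pi.mul_apply,
        Units.val_mul, map_mul]
      ring
  rw [← this, AlgEquiv.trans_apply]

lemma act_zero (h : IsTorus k (coord x y)) (z : L) : act h 0 1 z = z := by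
  have : act h 0 1 = AlgEquiv.refl := by
    apply algEquiv_ext_field h
    · intro i; rw [act_x]; simp
    · intro j; rw [act_y]; simp
  rw [this]
  rfl

lemma act_aeval (h : IsTorus k (coord x y)) (a : Fin r → k) (b : Fin s → kˣ)
    (p : MvPolynomial (Fin (r + s)) k) :
    act h a b (aeval (coord x y) p) = aeval (coord x y) (pAct a b p) := by
  have h1 : ((act h a b : L ≃ₐ[k] L) : L →ₐ[k] L).comp (aeval (coord x y)) =
      (aeval (coord x y)).comp (pAct a b) := by
    apply algHom_ext_coord
    · intro i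
      simp only [AlgHom.comp_apply, aeval_X, coord_left, pAct_left, map_add, algHom_C]
      exact act_x h a b i
    · intro j
      simp only [AlgHom.comp_apply, aeval_X, coord_right, pAct_right, map_mul, algHom_C]
      exact act_y h a b j
  exact DFunLike.congr_fun h1 p

/-- The action on polynomials in the `x_i` alone is a translation. -/
lemma act_aeval_x (h : IsTorus k (coord x y)) (a : Fin r → k) (b : Fin s → kˣ)
    (p : MvPolynomial (Fin r) k) :
    act h a b (aeval x p) = aeval x (aeval (fun i => X i + C (a i)) p) := by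
  have h1 : ((act h a b : L ≃ₐ[k] L) : L →ₐ[k] L).comp (aeval x) =
      (aeval x).comp (aeval (fun i => X i + C (a i)) :
        MvPolynomial (Fin r) k →ₐ[k] MvPolynomial (Fin r) k) := by
    apply MvPolynomial.algHom_ext
    intro i
    simp only [AlgHom.comp_apply, aeval_X, map_add, algHom_C]
    exact act_x h a b i
  exact DFunLike.congr_fun h1 p

lemma act_mono (h : IsTorus k (coord x y)) (a : Fin r → k) (b : Fin s → kˣ) (u : Fin s → ℤ) :
    act h a b (mono y u) = algebraMap k L (chi b u) * mono y u := by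
  unfold mono chi
  rw [map_prod, Units.coe_prod, map_prod, ← Finset.prod_mul_distrib]
  refine Finset.prod_congr rfl fun l _ => ?_
  rw [map_zpow₀, act_y, mul_zpow, Units.val_zpow_eq_zpow_val, map_zpow₀]

/-- The valuation is invariant under the action. -/
def Inv (h : IsTorus k (coord x y)) (P : DVal k L) : Prop := ∀ a b, P.comap (act h a b) = P

lemma Inv.apply {h : IsTorus k (coord x y)} {P : DVal k L} (hP : Inv h P) (a : Fin r → k)
    (b : Fin s → kˣ) (z : L) : P (act h a b z) = P z := by
  conv_rhs => rw [← hP a b]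
  rfl

/-- The set of prime divisors is stable under the action. -/
def Stab (X : ProjVar k L) (h : IsTorus k (coord x y)) : Prop :=
  ∀ a b, ∀ P ∈ X.primeDivisors, P.comap (act h a b) ∈ X.primeDivisors

lemma comap_comap (h : IsTorus k (coord x y)) (a a' : Fin r → k) (b b' : Fin s → kˣ)
    (P : DVal k L) : (P.comap (act h a b)).comap (act h a' b') =
      P.comap (act h (a + a') (b * b')) := by
  apply DVal.ext
  intro z
  rw [DVal.comap_apply, DVal.comap_apply, DVal.comap_apply, act_act]

lemma comap_zero (h : IsTorus k (coord x y)) (P : DVal k L) : P.comap (act h 0 1) = P := by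
  apply DVal.ext
  intro z
  rw [DVal.comap_apply, act_zero]

/-- The group acting. -/
abbrev Grp (k : Type*) [Field k] (r s : ℕ) : Type _ := Multiplicative (Fin r → k) × (Fin s → kˣ)

/-- The action on valuations. -/
@[reducible] noncomputable def grpAction (h : IsTorus k (coord x y)) :
    MulAction (Grp k r s) (DVal k L) where
  smul g P := P.comap (act h g.1.toAdd g.2)
  one_smul P := comap_zero h P
  mul_smul g g' P := by
    change P.comap (act h (g.1 * g'.1).toAdd (g.2 * g'.2)) =
      (P.comap (act h g'.1.toAdd g'.2)).comap (act h g.1.toAdd g.2)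
    rw [comap_comap, toAdd_mul, add_comm, mul_comm]

/-- A valuation with finite orbit is invariant. -/
theorem inv_of_finite [IsAlgClosed k] [CharZero k] (h : IsTorus k (coord x y)) (P : DVal k L)
    (hfin : (Set.range fun g : (Fin r → k) × (Fin s → kˣ) => P.comap (act h g.1 g.2)).Finite) :
    Inv h P := by
  let _ := grpAction h
  have horb : (MulAction.orbit (Grp k r s) P).Finite := by
    apply hfin.subset
    rintro _ ⟨g, rfl⟩
    exact ⟨(g.1.toAdd, g.2), rfl⟩
  have hidx := MulAction.index_stabilizer (Grp k r s) P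
  have hne : (MulAction.stabilizer (Grp k r s) P).index ≠ 0 := by
    rw [hidx]
    exact ((Set.ncard_pos horb).2 (MulAction.nonempty_orbit P)).ne'
  intro a b
  have hroot : ∃ g : Grp k r s, g ^ (MulAction.stabilizer (Grp k r s) P).index =
      (Multiplicative.ofAdd a, b) := by
    set n := (MulAction.stabilizer (Grp k r s) P).index with hn
    have h1 : ∀ i, ∃ d : kˣ, d ^ n = b i := by
      intro i
      obtain ⟨z, hz⟩ := IsAlgClosed.exists_pow_nat_eq (b i : k) (Nat.pos_of_ne_zero hne)
      have hz0 : z ≠ 0 := by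
        rintro rfl
        rw [zero_pow hne] at hz
        exact (b i).ne_zero hz.symm
      refine ⟨Units.mk0 z hz0, ?_⟩
      apply Units.ext
      simp [hz]
    choose d hd using h1
    refine ⟨(Multiplicative.ofAdd ((n : k)⁻¹ • a), d), ?_⟩
    apply Prod.ext
    · change (Multiplicative.ofAdd ((n : k)⁻¹ • a)) ^ n = Multiplicative.ofAdd a
      rw [← ofAdd_nsmul]
      congr 1
      have hn0 : (n : k) ≠ 0 := by exact_mod_cast hne
      rw [← Nat.cast_smul_eq_nsmul k, smul_smul, mul_inv_cancel₀ hn0, one_smul]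
    · exact funext hd
  obtain ⟨g, hg⟩ := hroot
  have h2 := Subgroup.pow_index_mem (MulAction.stabilizer (Grp k r s) P) g
  rw [hg] at h2
  exact h2

end act

end Pool.Agent.Helper92.KN
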