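import Pool.Agent.Helper92.KN.Prime
import Pool.Agent.Helper92.Weak.Torus7

/-!
# Project KN, geometry, module G3: finiteness and completeness of the boundary

PROOFS.
* `finite_inv`: an invariant prime divisor `P` has `P (x i) ≠ 0` for some `i` or `P (y j) ≠ 0` for
  some `j`; then `X.finite_support` for the finitely many functions `x i`, `y j`. Otherwise
  `PVal.eq_zero_of_nonneg (pval h P hP)` (Helper93/KN/Deriv.lean) gives `P (aeval x f) = 0` for all
  `f`, so `P (lev x y f) = 0` for `f ≠ 0` (`Inv.ge_lev` with `n = 0` gives `≥ 0`; and with `n = 1`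
  it fails), so `P (aeval (coord x y) p) = 0` for all `p` (`exists_lev_eq`), so `P = 0` on `L`
  (`exists_aeval_div h`), contradiction to `P.surj'`.
* `complete_inv`: clear denominators (`u` integral: multiply by `∏ (u j).den`). If all pairings
  `ipair (P (y ·)) u ≥ 0` for invariant `P`, then `P (mono y u) ≥ 0` for all prime divisors `P`
  (`val_mono`; for noninvariant `P` it is `0` by `exists_polyVal'` and `polyVal_t`), so `mono y u` is
  a constant (functions without poles on `X` are constant: see how the field `complete` of the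
  `TData` is proved in `Pool/Agent/Helper92/Weak/Compare.lean`), hence `u = 0` because
  `y` is algebraically independent (`ev_injective h` for the exponents `Fin.append 0 u`, or
  `lev_injective`: `lev (single u 1) = lev (single 0 (C c))`).
-/

set_option autoImplicit false

namespace Pool.Agent.Helper92.KN

open Pool.Agent.Helper92.Weak MvPolynomial

variable {k L : Type*} [Field k] [Field L] [Algebra k L] {r s : ℕ} {x : Fin r → L} {y : Fin s → L}

variable [CharZero k] {X : ProjVar k L}

/-- An invariant valuation is nonzero on one of the coordinates. -/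
lemma Inv.exists_ne {h : IsTorus k (coord x y)} {P : DVal k L} (hP : Inv h P) :
    (∃ i, P (x i) ≠ 0) ∨ ∃ j, P (y j) ≠ 0 := by
  classical
  by_contra hcon
  push Not at hcon
  obtain ⟨hx, hy⟩ := hcon
  have h1 : ∀ f : MvPolynomial (Fin r) k, P (aeval x f) = 0 := by
    intro f
    rw [← pval_apply h P hP f]
    apply Pool.Agent.Helper93.KN.PVal.eq_zero_of_nonneg
    intro i
    right
    rw [pval_apply, aeval_X, hx i, Int.cast_zero]
  have h2 : ∀ u : Fin s → ℤ, ipair (fun j => P (y j)) u = 0 := by
    intro u
    unfold ipair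
    exact Finset.sum_eq_zero fun j _ => by simp only [hy j, mul_zero]
  have h3 : ∀ f : (Fin s → ℤ) →₀ MvPolynomial (Fin r) k, P (lev x y f) = 0 := by
    intro f
    by_cases hf : f = 0
    · rw [hf, map_zero, P.map_zero]
    have hne : lev x y f ≠ 0 := fun h0 => hf (lev_injective h (by rw [h0, map_zero]))
    have h4 : P.Ge 0 (lev x y f) := by
      rw [hP.ge_lev]
      intro u _
      rw [h1, h2]
      simp
    have h5 : ¬ P.Ge 1 (lev x y f) := by
      rw [hP.ge_lev]
      intro h6
      obtain ⟨u, hu⟩ := Finsupp.support_nonempty_iff.2 hf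
      have h7 := h6 u (Finsupp.mem_support_iff.1 hu)
      rw [h1, h2] at h7
      norm_num at h7
    rw [DVal.ge_iff hne] at h4 h5
    have h6 : (0 : ℤ) ≤ P (lev x y f) := by exact_mod_cast h4
    have h7 : P (lev x y f) < 1 := by
      by_contra h8
      push Not at h8
      exact h5 (by exact_mod_cast h8)
    omega
  obtain ⟨z, hz⟩ := P.surj'
  obtain ⟨a, b, hb, hab⟩ := exists_aeval_div h z
  obtain ⟨f, hf⟩ := exists_lev_eq h a
  obtain ⟨g, hg⟩ := exists_lev_eq h b
  have h8 : P z = 0 := by
    by_cases hf0 : aeval (coord x y) a = 0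
    · rw [hab, hf0, zero_div, P.map_zero]
    have hg0 : aeval (coord x y) b ≠ 0 := fun h0 => hb (h.indep (by
      change aeval (coord x y) _ = aeval (coord x y) _
      rw [h0, map_zero]))
    rw [hab, DVal.map_div _ hf0 hg0, ← hf, ← hg, h3, h3, sub_zero]
  change P z = 1 at hz
  omega

theorem finite_inv (X : ProjVar k L) (h : IsTorus k (coord x y)) :
    {P : X.primeDivisors | Inv h P.1}.Finite := by
  apply Set.Finite.of_finite_image (f := fun P : X.primeDivisors => P.1) _
    (Subtype.val_injective.injOn)
  apply ((Set.finite_iUnion fun i => X.finite_support (ne_zero_x h i)).union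
    (Set.finite_iUnion fun j => X.finite_support (ne_zero_y h j))).subset
  rintro _ ⟨P, hP, rfl⟩
  rcases Inv.exists_ne hP with ⟨i, hi⟩ | ⟨j, hj⟩
  · left
    rw [Set.mem_iUnion]
    exact ⟨i, P.2, hi⟩
  · right
    rw [Set.mem_iUnion]
    exact ⟨j, P.2, hj⟩

lemma mono_append (u : Fin s → ℤ) : mono (coord x y) (Fin.append (0 : Fin r → ℤ) u) = mono y u := by
  unfold mono
  rw [Fin.prod_univ_add]
  simp

theorem complete_inv [IsAlgClosed k] {h : IsTorus k (coord x y)} (hX : Stab X h) (u : Fin s → ℚ)
    (hu : ∀ P ∈ X.primeDivisors, Inv h P → 0 ≤ pairL (fun j => P (y j)) u) : u = 0 := by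
  classical
  by_contra hne
  obtain ⟨n, hn, hint⟩ := exists_int_multiple u
  obtain ⟨z, hz'⟩ := hint
  have hz : ∀ l, (n : ℚ) * u l = z l := fun l => congrFun hz' l
  have hz0 : z ≠ 0 := by
    intro h
    apply hne
    funext l
    have h1 := hz l
    rw [h, Pi.zero_apply, Int.cast_zero] at h1
    have h2 : (n : ℚ) ≠ 0 := by positivity
    exact (mul_eq_zero.1 h1).resolve_left h2
  have hzz : ipair (-(Fin.append (0 : Fin r → ℤ) z)) (Fin.append (0 : Fin r → ℤ) z) < 0 := by
    unfold ipair
    rw [Fin.sum_univ_add]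
    simp only [Pi.neg_apply, Fin.append_left, Fin.append_right, Pi.zero_apply, zero_mul,
      Finset.sum_const_zero, mul_neg, Finset.sum_neg_distrib]
    obtain ⟨l, hl⟩ := Function.ne_iff.1 hz0
    have h2 : z l * z l ≤ ∑ l, z l * z l :=
      Finset.single_le_sum (f := fun l => z l * z l) (fun l _ => mul_self_nonneg _)
        (Finset.mem_univ l)
    have h3 : 0 < z l * z l := mul_self_pos.2 hl
    omega
  set v := monoZ h (ZVal.trivial k k) (-(Fin.append (0 : Fin r → ℤ) z)) with hv
  have hvt : v (mono y z) < 0 := by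
    have h1 := monoZ_term h (ZVal.trivial k k) (-(Fin.append (0 : Fin r → ℤ) z))
      (one_ne_zero : (1 : k) ≠ 0) (Fin.append (0 : Fin r → ℤ) z)
    rw [one_smul, mono_append] at h1
    rw [hv, h1]
    change 0 + _ < _
    rw [zero_add]
    exact hzz
  obtain ⟨e, w, he, hw⟩ := v.exists_dval ⟨mono y z, by omega⟩
  have he' : (0 : ℤ) < e := by exact_mod_cast he
  obtain ⟨R, hR, hRw⟩ := X.exists_center w
  have hzR : mono y z ∉ R := by
    intro h
    have h1 := hRw.1 h
    rw [DVal.mem_ring] at h1
    have h2 := hw (mono y z)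
    have := mul_nonneg he'.le h1
    omega
  obtain ⟨P, hP, hRP, hPz⟩ : ∃ P ∈ X.primeDivisors, R ≤ P.ring ∧ mono y z ∉ P.ring := by
    by_contra hcon
    push Not at hcon
    exact hzR (X.hartogs hR hcon)
  apply hPz
  rw [DVal.mem_ring, val_mono h]
  by_cases hinv : Inv h P
  · have h1 := hu P hP hinv
    have h3 : pairL (fun j => P (y j)) (fun l => (z l : ℚ)) = n * pairL (fun j => P (y j)) u := by
      rw [← smul_eq_mul, ← map_smul]
      congr 1
      funext l
      rw [Pi.smul_apply, smul_eq_mul]
      exact (hz l).symm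
    rw [← ipair_cast] at h3
    have h4 : (0 : ℚ) ≤ (ipair (fun j => P (y j)) z : ℤ) := by
      rw [h3]
      positivity
    exact_mod_cast h4
  · obtain ⟨p, hp, hPp, hpj⟩ := exists_polyVal' hX hP hinv
    have h1 : ∀ j, P (y j) = 0 := by
      intro j
      have h2 := polyVal_t k h hp (hpj j)
      rw [coord_right] at h2
      rw [hPp]
      exact h2
    have h2 : ipair (fun j => P (y j)) z = 0 := by
      unfold ipair
      exact Finset.sum_eq_zero fun j _ => by simp only [h1 j, mul_zero]
    rw [h2]

end Pool.Agent.Helper92.KN
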