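import Pool.Agent.Helper92.KN.Compl

set_option autoImplicit false

/-!
# Project KN, geometry, module G4: the degree bound

PROOF. For every `i : Fin r` let `v_i = monoVal h (ZVal.trivial k k) w hs` with
`w = Pi.single (Fin.castAdd s i) (-1)` (`Pool/Agent/Helper92/Weak/Torus2.lean`; `hs` with `c = 1`,
`u = Pi.single (Fin.castAdd s i) (-1)`): `v_i (aeval x f) ≤ -(degreeOf i f)` for `f ≠ 0`
(`aeval x f = aeval (coord x y) (rename ..)` is `ev k (coord x y) g` by the formula in the proof of
`exists_ev_eq`; `monoVal_ev`, `gaussN_le` at the exponent of a monomial of `f` with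
`m i = degreeOf i f`). Let `R ∈ X.localRings` be the centre of `v_i` (`X.exists_center v_i`:
`Dominates R v_i.ring`, so `R ≤ v_i.ring`). For each of the finitely many (`finite_inv`) invariant
prime divisors `P` with `R ≤ P.ring` there is `a_P ∈ R`, `a_P ≠ 0`, with `P (a_P) ≥ 1` (write an
element with `P z = 1` as a quotient of elements of `R`: `X.chart_isFrac` and `chart ≤ R`; in
`Pool/Agent/Helper92/Weak/Loc.lean` or `Geo.lean` there may be a lemma). Put `σ_i = ∏ a_P ∈ R`. For
`f` as in the statement, `f ≠ 0`, `aeval x f * σ_i ^ T ∈ R` by `X.hartogs`: for prime divisors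
`P ≥ R` invariant: `P (aeval x f) + T * P σ_i ≥ -T + T`; not invariant: `P = polyVal ..`
(`exists_polyVal'`), `P (aeval x f) ≥ 0` (`polyVal_nonneg`, `aeval_inX`), `P σ_i ≥ 0`. So
`0 ≤ v_i (aeval x f) + T * v_i σ_i`, so `degreeOf i f ≤ T * v_i σ_i`. Sum over `i`
(`MvPolynomial.totalDegree_le_sum_degreeOf`-type lemma: every monomial of `f` has
`∑ m i ≤ ∑ degreeOf i f`).
-/

namespace Pool.Agent.Helper92.KN

open Pool.Agent.Helper92.Weak MvPolynomial

variable {k L : Type*} [Field k] [Field L] [Algebra k L] {r s : ℕ} {x : Fin r → L} {y : Fin s → L}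

variable [IsAlgClosed k] [CharZero k] {X : ProjVar k L} {h : IsTorus k (coord x y)}

/-- The exponent of a monomial in the `x_i`, as an exponent of all coordinates. -/
private def expo (s : ℕ) (m : Fin r →₀ ℕ) : Fin (r + s) → ℤ :=
  Fin.append (fun i => ((m i : ℕ) : ℤ)) (fun _ => 0)

private lemma expo_left (m : Fin r →₀ ℕ) (i : Fin r) :
    expo s m (Fin.castAdd s i) = ((m i : ℕ) : ℤ) := by
  simp [expo]

private lemma expo_right (m : Fin r →₀ ℕ) (j : Fin s) : expo s m (Fin.natAdd r j) = 0 := by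
  simp [expo]

private lemma expo_injective : Function.Injective (expo (r := r) s) := by
  intro m m' hm
  ext i
  have h1 := congrFun hm (Fin.castAdd s i)
  rw [expo_left, expo_left] at h1
  exact_mod_cast h1

omit [IsAlgClosed k] [CharZero k] in
private lemma mono_expo (m : Fin r →₀ ℕ) : mono (coord x y) (expo s m) = ∏ i, x i ^ m i := by
  unfold mono
  rw [Fin.prod_univ_add]
  have h1 : ∏ j : Fin s, coord x y (Fin.natAdd r j) ^ expo s m (Fin.natAdd r j) = 1 := by
    apply Finset.prod_eq_one
    intro j _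
    rw [expo_right, zpow_zero]
  rw [h1, mul_one]
  refine Finset.prod_congr rfl fun i _ => ?_
  rw [expo_left, coord_left, zpow_natCast]

/-- A polynomial in the `x_i` as a Laurent polynomial in all coordinates. -/
private noncomputable def lau (s : ℕ) (f : MvPolynomial (Fin r) k) : (Fin (r + s) → ℤ) →₀ k :=
  ∑ m ∈ f.support, Finsupp.single (expo s m) (coeff m f)

omit [IsAlgClosed k] [CharZero k] in
private lemma lau_apply (f : MvPolynomial (Fin r) k) {m : Fin r →₀ ℕ} (hm : m ∈ f.support) :
    lau s f (expo s m) = coeff m f := by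
  classical
  unfold lau
  rw [Finsupp.finsetSum_apply, Finset.sum_eq_single m]
  · rw [Finsupp.single_eq_same]
  · intro m' _ hne
    rw [Finsupp.single_apply, if_neg]
    intro heq
    exact hne (expo_injective heq)
  · intro h1
    exact absurd hm h1

omit [IsAlgClosed k] [CharZero k] in
private lemma ev_lau (f : MvPolynomial (Fin r) k) : ev k (coord x y) (lau s f) = aeval x f := by
  unfold lau
  rw [map_sum]
  conv_rhs => rw [f.as_sum]
  rw [map_sum]
  refine Finset.sum_congr rfl fun m _ => ?_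
  rw [ev_single, aeval_monomial, Finsupp.prod_fintype _ _ (fun i => by simp), Algebra.smul_def,
    mono_expo]

omit [IsAlgClosed k] [CharZero k] in
private lemma triv_surj (i : Fin r) : ∃ (c : k) (u : Fin (r + s) → ℤ), c ≠ 0 ∧
    (ZVal.trivial k k) c + ipair (Pi.single (Fin.castAdd s i) (-1)) u = 1 := by
  refine ⟨1, Pi.single (Fin.castAdd s i) (-1), one_ne_zero, ?_⟩
  have h0 : (ZVal.trivial k k) (1 : k) = 0 := rfl
  rw [h0, zero_add]
  unfold ipair
  rw [Finset.sum_eq_single (Fin.castAdd s i)]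
  · rw [Pi.single_eq_same]
    norm_num
  · intro l _ hl
    rw [Pi.single_eq_of_ne hl, mul_zero]
  · intro h1
    exact absurd (Finset.mem_univ _) h1

/-- The valuation `-deg_{x_i}`. -/
private noncomputable def degVal (h : IsTorus k (coord x y)) (i : Fin r) : DVal k L :=
  monoVal h (ZVal.trivial k k) (Pi.single (Fin.castAdd s i) (-1)) (triv_surj i)

omit [IsAlgClosed k] [CharZero k] in
private lemma degVal_le (h : IsTorus k (coord x y)) (i : Fin r) {f : MvPolynomial (Fin r) k}
    (hf : f ≠ 0) : degVal h i (aeval x f) ≤ -(degreeOf i f : ℤ) := by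
  classical
  have hsupp : f.support.Nonempty := by
    rw [Finset.nonempty_iff_ne_empty, Ne, MvPolynomial.support_eq_empty]
    exact hf
  obtain ⟨m, hm, hmi⟩ : ∃ m ∈ f.support, degreeOf i f = m i := by
    rw [degreeOf_eq_sup]
    exact Finset.exists_mem_eq_sup _ hsupp _
  have hcoef : coeff m f ≠ 0 := mem_support_iff.1 hm
  have h1 : lau s f (expo s m) ≠ 0 := by
    rw [lau_apply f hm]
    exact hcoef
  have h2 : lau s f ≠ 0 := by
    intro h0
    rw [h0] at h1
    exact h1 rfl
  unfold degVal
  rw [← ev_lau (s := s) (y := y) f, monoVal_ev h _ _ _ h2]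
  refine (gaussN_le h1).trans ?_
  have h3 : (ZVal.trivial k k) (lau s f (expo s m)) = 0 := rfl
  rw [h3, zero_add, hmi]
  unfold ipair
  rw [Finset.sum_eq_single (Fin.castAdd s i)]
  · rw [Pi.single_eq_same, expo_left]
    linarith
  · intro l _ hl
    rw [Pi.single_eq_of_ne hl, mul_zero]
  · intro h1
    exact absurd (Finset.mem_univ _) h1

omit [IsAlgClosed k] [CharZero k] in
private lemma isFrac_local {R : Subalgebra k L} (hR : R ∈ X.localRings) : IsFrac R := by
  obtain ⟨i, p, hp, rfl⟩ := X.mem_localRings.1 hR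
  exact (X.chart_isFrac i).mono (le_locAt p)

omit [IsAlgClosed k] [CharZero k] in
/-- An element of a local ring which is positive at a given prime divisor through the point. -/
private lemma exists_pos {R : Subalgebra k L} (hR : R ∈ X.localRings) (P : DVal k L) :
    ∃ a ∈ R, a ≠ 0 ∧ (R ≤ P.ring → 1 ≤ P a) := by
  by_cases hle : R ≤ P.ring
  · obtain ⟨z, hz0, hz⟩ := P.exists_uniformizer
    obtain ⟨a, ha, b, hb, hb0, hzab⟩ := isFrac_local hR z
    have ha0 : a ≠ 0 := by
      rintro rfl
      rw [zero_div] at hzab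
      exact hz0 hzab
    refine ⟨a, ha, ha0, fun _ => ?_⟩
    have h1 := hle hb
    rw [DVal.mem_ring] at h1
    rw [hzab, P.map_div ha0 hb0] at hz
    omega
  · exact ⟨1, R.one_mem, one_ne_zero, fun h1 => absurd h1 hle⟩

private lemma deg_bound_one (hX : Stab X h) (i : Fin r) : ∃ C : ℕ, ∀ (T : ℕ)
    (f : MvPolynomial (Fin r) k),
    (∀ P ∈ X.primeDivisors, Inv h P → P.Ge (-(T : ℚ)) (aeval x f)) →
      degreeOf i f ≤ C * T := by
  classical
  obtain ⟨R, hR, hdom⟩ := X.exists_center (degVal h i)
  have hRv : R ≤ (degVal h i).ring := hdom.1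
  set S : Finset X.primeDivisors := (finite_inv X h).toFinset with hS
  choose a ha using fun P : X.primeDivisors => exists_pos hR P.1
  set σ : L := ∏ P ∈ S, a P with hσ
  have hσR : σ ∈ R := Subalgebra.prod_mem _ fun P _ => (ha P).1
  have hσ0 : σ ≠ 0 := Finset.prod_ne_zero_iff.2 fun P _ => (ha P).2.1
  have hσv : 0 ≤ degVal h i σ := by
    have := hRv hσR
    rwa [DVal.mem_ring] at this
  refine ⟨(degVal h i σ).toNat, fun T f hf => ?_⟩
  by_cases hf0 : f = 0
  · rw [hf0]
    simp
  have hz0 : aeval x f ≠ 0 := aeval_x_ne h hf0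
  have hmem : aeval x f * σ ^ T ∈ R := by
    apply X.hartogs hR
    intro P hP hRP
    have hPσ : 0 ≤ P σ := by
      have := hRP hσR
      rwa [DVal.mem_ring] at this
    rw [DVal.mem_ring, P.map_mul hz0 (pow_ne_zero T hσ0), P.map_pow]
    by_cases hinv : Inv h P
    · have h1 : 1 ≤ P σ := by
        have hPS : (⟨P, hP⟩ : X.primeDivisors) ∈ S := by
          rw [hS, Set.Finite.mem_toFinset]
          exact hinv
        rw [hσ, P.map_prod _ _ fun Q _ => (ha Q).2.1]
        refine ((ha ⟨P, hP⟩).2.2 hRP).trans ?_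
        apply Finset.single_le_sum (f := fun Q : X.primeDivisors => P (a Q)) _ hPS
        intro Q _
        have := hRP (ha Q).1
        rwa [DVal.mem_ring] at this
      have h2 := hf P hP hinv
      rw [DVal.ge_iff hz0] at h2
      have h3 : -(T : ℤ) ≤ P (aeval x f) := by exact_mod_cast h2
      have h4 : (T : ℤ) * 1 ≤ (T : ℤ) * P σ := mul_le_mul_of_nonneg_left h1 (by positivity)
      linarith
    · obtain ⟨p, hp, hPp, -⟩ := exists_polyVal' hX hP hinv
      have h1 : 0 ≤ P (aeval x f) := by
        rw [← aeval_inX (y := y) f, hPp]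
        exact polyVal_nonneg k h hp _
      have h4 : 0 ≤ (T : ℤ) * P σ := mul_nonneg (by positivity) hPσ
      linarith
  have h5 := hRv hmem
  rw [DVal.mem_ring, DVal.map_mul _ hz0 (pow_ne_zero T hσ0), DVal.map_pow] at h5
  have h6 := degVal_le h i hf0
  have h7 := Int.toNat_of_nonneg hσv
  have h8 : (degreeOf i f : ℤ) ≤ ((degVal h i σ).toNat : ℤ) * (T : ℤ) := by
    rw [h7]
    linarith
  exact_mod_cast h8

theorem deg_bound (hX : Stab X h) : ∃ C : ℕ, ∀ (T : ℕ) (f : MvPolynomial (Fin r) k),
    (∀ P ∈ X.primeDivisors, Inv h P → P.Ge (-(T : ℚ)) (aeval x f)) →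
      f.totalDegree ≤ C * (T + 1) := by
  choose C hC using fun i : Fin r => deg_bound_one hX i
  refine ⟨∑ i, C i, fun T f hf => ?_⟩
  have h1 : f.totalDegree ≤ ∑ i, degreeOf i f := by
    unfold totalDegree
    apply Finset.sup_le
    intro m hm
    rw [Finsupp.sum_fintype _ _ (fun _ => rfl)]
    exact Finset.sum_le_sum fun i _ => monomial_le_degreeOf i hm
  calc f.totalDegree ≤ ∑ i, degreeOf i f := h1
    _ ≤ ∑ i, C i * T := Finset.sum_le_sum fun i _ => hC i T f hf
    _ = (∑ i, C i) * T := by rw [Finset.sum_mul]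
    _ ≤ (∑ i, C i) * (T + 1) := Nat.mul_le_mul_left _ (Nat.le_succ T)

end Pool.Agent.Helper92.KN
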