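import Pool.Agent.Helper92.KN.Sect
import Pool.Agent.Helper92.Ga.Comp

set_option autoImplicit false

/-!
# Project KN, geometry: the interface theorem
-/

namespace Pool.Agent.Helper92.KN

open Pool.Agent.Helper92.Weak MvPolynomial
open Pool.Agent.Helper93.KN (PVal BData IsGroupCompactification)

universe u v

section

variable {k L : Type*} [Field k] [Field L] [Algebra k L] {r s : ℕ} {x : Fin r → L} {y : Fin s → L}
  {X : ProjVar k L}

lemma coord_comp (x : Fin r → L) (y : Fin s → L) :
    coord x y ∘ finSumFinEquiv = Sum.elim x y := by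
  funext l
  rcases l with i | j
  · simp
  · simp

lemma isTorus_of (h : IsGroupCompactification x y X) : IsTorus k (coord x y) := by
  constructor
  · have h1 := h.indep
    rw [← coord_comp] at h1
    exact (algebraicIndependent_equiv finSumFinEquiv).1 h1
  · have h1 := h.gen
    rw [← coord_comp, EquivLike.range_comp] at h1
    exact h1

lemma stab_of (h : IsGroupCompactification x y X) : Stab X (isTorus_of h) := by
  intro a b P hP
  obtain ⟨R', hR', h1⟩ := h.stable (act (isTorus_of h) a b) a (fun j => (b j : k))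
    (fun i => act_x _ a b i) (fun j => by rw [act_y, Algebra.smul_def]) P.ring hP
  change (P.comap (act (isTorus_of h) a b)).ring ∈ X.localRings
  have h2 : (P.comap (act (isTorus_of h) a b)).ring = R' := by
    ext z
    rw [h1]
    exact Iff.rfl
  rw [h2]
  exact hR'

end

section

variable {k L : Type*} [Field k] [Field L] [Algebra k L] [IsAlgClosed k] [CharZero k] {r s : ℕ}
  {x : Fin r → L} {y : Fin s → L} {X : ProjVar k L} {h : IsTorus k (coord x y)}

/-- `h⁰` of an integral divisor supported on the boundary. -/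
lemma h0_bd (hX : Stab X h) {D : X.Div} (hint : X.IsInt D) (hD : ∀ P, ¬ Inv h P.1 → D P = 0) :
    X.h0 D = sdim ((bdata hX).sec (fun P => D P.1)) := by
  rw [X.h0_of_int hint, sdim_H0 hX hD]

lemma sec_mono' {k : Type*} [Field k] {r s : ℕ} {H : Type*} (B : BData k r s H) {G G' : H → ℚ}
    (hG : ∀ i, G i ≤ G' i) : B.sec G ≤ B.sec G' := by
  intro f hf
  rw [BData.mem_sec] at hf ⊢
  intro u i
  exact (hf u i).mono (by linarith [hG i])

lemma h0_le_sdim (D : X.Div) : X.h0 D ≤ sdim (X.H0 D) := by
  unfold ProjVar.h0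
  split_ifs
  · exact le_rfl
  · exact zero_le

lemma H0_mono {D D' : X.Div} (hD : ∀ P, D P ≤ D' P) : X.H0 D ≤ X.H0 D' := by
  unfold ProjVar.H0
  exact sec_mono hD

end

/-- The section spaces of all divisors on a compactification of `𝔾_a^r × 𝔾_m^s` are described by
the combinatorial data of the boundary. -/
theorem geom {k : Type u} {L : Type v} [Field k] [Field L] [Algebra k L] [IsAlgClosed k]
    [CharZero k] {r s : ℕ} {x : Fin r → L} {y : Fin s → L} {X : ProjVar k L}
    (h : IsGroupCompactification x y X) :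
    ∃ (H : Type v) (_ : Fintype H) (B : BData k r s H), ∀ D : X.Div, ∃ (N : ℕ) (M : H → ℚ),
      1 ≤ N ∧ (∀ i, ∃ z : ℤ, M i = z) ∧
      (∀ n : ℕ, X.h0 (((N * n : ℕ) : ℚ) • D) = sdim (B.sec ((n : ℚ) • M))) ∧
      ∀ A : X.Div, ∃ A' : H → ℚ, ∀ m : ℕ,
        X.h0 ((m : ℚ) • D + A) ≤ sdim (B.sec (((m : ℚ) / N) • M + A')) := by
  classical
  have hX := stab_of h
  refine ⟨Bd X (isTorus_of h), inferInstance, bdata hX, fun D => ?_⟩
  obtain ⟨N, hN, hND⟩ := Pool.Agent.Helper92.Ga.IsInt.smul_of_dvd D
  obtain ⟨ψ, hψ, hψ2⟩ := exists_add_prin hX _ hND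
  set E : X.Div := (N : ℚ) • D + X.prin ψ with hE
  have hEint : X.IsInt E := hND.add (X.isInt_prin ψ)
  refine ⟨N, fun P => E P.1, hN, fun P => hEint P.1, fun n => ?_, fun A => ?_⟩
  · have h1 : (n : ℚ) • E = ((N * n : ℕ) : ℚ) • D + X.prin (ψ ^ n) := by
      rw [hE, smul_add, ProjVar.prin_pow, smul_smul]
      congr 2
      push_cast
      ring
    rw [← ProjVar.h0_add_prin _ (pow_ne_zero n hψ), ← h1, h0_bd hX (hEint.nsmul n)]
    · rfl
    · intro P hP
      rw [Finsupp.smul_apply, hψ2 P hP, smul_zero]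
  · -- an integral divisor bounding the remainders
    set A₁ : X.Div := Finsupp.onFinset (D.support ∪ A.support)
      (fun P => if D P = 0 ∧ A P = 0 then 0 else ((⌈N * |D P| + |A P|⌉ : ℤ) : ℚ)) (by
        intro P hP
        rw [Finset.mem_union, Finsupp.mem_support_iff, Finsupp.mem_support_iff]
        by_contra hcon
        push Not at hcon
        rw [if_pos hcon] at hP
        exact hP rfl) with hA₁
    have hA₁' : ∀ P, A₁ P = if D P = 0 ∧ A P = 0 then 0 else ((⌈N * |D P| + |A P|⌉ : ℤ) : ℚ) :=
      fun P => rfl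
    have hA₁int : X.IsInt A₁ := by
      intro P
      rw [hA₁']
      split_ifs
      · exact ⟨0, by simp⟩
      · exact ⟨_, rfl⟩
    have hA₁le : ∀ (ρ : ℕ), ρ ≤ N → ∀ P, (ρ : ℚ) * D P + A P ≤ A₁ P := by
      intro ρ hρ P
      rw [hA₁']
      split_ifs with h0
      · rw [h0.1, h0.2]; simp
      · have h1 : (ρ : ℚ) * D P ≤ N * |D P| := by
          have h2 : (ρ : ℚ) * D P ≤ ρ * |D P| :=
            mul_le_mul_of_nonneg_left (le_abs_self _) (by positivity)
          have h3 : (ρ : ℚ) * |D P| ≤ N * |D P| :=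
            mul_le_mul_of_nonneg_right (by exact_mod_cast hρ) (abs_nonneg _)
          linarith
        have h2 := le_abs_self (A P)
        have h3 := Int.le_ceil (N * |D P| + |A P|)
        linarith
    obtain ⟨ψ₁, hψ₁, hψ₁2⟩ := exists_add_prin hX _ hA₁int
    set A₂ : X.Div := A₁ + X.prin ψ₁ with hA₂
    have hA₂int : X.IsInt A₂ := hA₁int.add (X.isInt_prin ψ₁)
    refine ⟨fun P => A₂ P.1 + |E P.1|, fun m => ?_⟩
    set q := m / N with hq
    set ρ := m % N with hρ
    have hm : m = N * q + ρ := (Nat.div_add_mod m N).symm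
    have hρN : ρ < N := Nat.mod_lt _ hN
    have e1 : (q : ℚ) • E + A₂ = (((N * q : ℕ) : ℚ) • D + A₁) + X.prin (ψ ^ q * ψ₁) := by
      rw [hE, hA₂, smul_add, ProjVar.prin_mul _ (pow_ne_zero q hψ) hψ₁, ProjVar.prin_pow, smul_smul]
      have h2 : (q : ℚ) * (N : ℚ) = ((N * q : ℕ) : ℚ) := by push_cast; ring
      rw [h2]
      abel
    calc X.h0 ((m : ℚ) • D + A) ≤ sdim (X.H0 ((m : ℚ) • D + A)) := h0_le_sdim _
      _ ≤ sdim (X.H0 (((N * q : ℕ) : ℚ) • D + A₁)) := by
          apply sdim_mono
          apply H0_mono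
          intro P
          rw [Finsupp.add_apply, Finsupp.add_apply, Finsupp.smul_apply, Finsupp.smul_apply,
            smul_eq_mul, smul_eq_mul]
          have h2 := hA₁le ρ hρN.le P
          have h3 : (m : ℚ) = ((N * q : ℕ) : ℚ) + ρ := by exact_mod_cast hm
          rw [h3]
          linarith
      _ = X.h0 (((N * q : ℕ) : ℚ) • D + A₁) := by
          rw [X.h0_of_int]
          apply ProjVar.IsInt.add _ hA₁int
          have h4 : ((N * q : ℕ) : ℚ) • D = (q : ℚ) • ((N : ℚ) • D) := by
            rw [smul_smul]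
            congr 1
            push_cast
            ring
          rw [h4]
          exact hND.nsmul q
      _ = X.h0 ((q : ℚ) • E + A₂) := by
          rw [e1, ProjVar.h0_add_prin _ (mul_ne_zero (pow_ne_zero q hψ) hψ₁)]
      _ = sdim ((bdata hX).sec (fun P => ((q : ℚ) • E + A₂) P.1)) := by
          apply h0_bd hX ((hEint.nsmul q).add hA₂int)
          intro P hP
          rw [Finsupp.add_apply, Finsupp.smul_apply, hψ2 P hP, hψ₁2 P hP, smul_zero, add_zero]
      _ ≤ sdim ((bdata hX).sec (((m : ℚ) / N) • (fun P : Bd X (isTorus_of h) => E P.1) +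
            fun P => A₂ P.1 + |E P.1|)) := by
          apply sdim_mono
          apply sec_mono'
          intro P
          rw [Finsupp.add_apply, Finsupp.smul_apply, smul_eq_mul, Pi.add_apply, Pi.smul_apply,
            smul_eq_mul]
          have hN0 : (0 : ℚ) < N := by exact_mod_cast hN
          have h3 : (m : ℚ) / N = q + ρ / N := by
            rw [hm]
            push_cast
            field_simp
          have h4 : (0 : ℚ) ≤ ρ / N := by positivity
          have h5 : (ρ : ℚ) / N ≤ 1 := by
            rw [div_le_one hN0]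
            exact_mod_cast hρN.le
          have h6 : -|E P.1| ≤ (ρ : ℚ) / N * E P.1 := by
            have h7 : -((ρ : ℚ) / N * |E P.1|) ≤ (ρ : ℚ) / N * E P.1 := by
              rw [← mul_neg]
              exact mul_le_mul_of_nonneg_left (neg_abs_le _) h4
            have h8 : (ρ : ℚ) / N * |E P.1| ≤ 1 * |E P.1| :=
              mul_le_mul_of_nonneg_right h5 (abs_nonneg _)
            linarith
          rw [h3, add_mul]
          linarith

end Pool.Agent.Helper92.KN
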