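import Pool.Agent.Helper92.KN.Term

set_option autoImplicit false

/-!
# Project KN, geometry, module G1: non-invariant prime divisors are given by prime polynomials

PROOF = adaptation of `Pool/Agent/Helper92/Weak/Torus4.lean` (`polyVal_comap`) and `Torus5.lean`
(`isInv_of_ne`, `exists_polyVal`) with `K = k`, `t = coord x y`, `scale` replaced by `act`
(`pAct` for `polyScale`, see `Base.lean`: `act_aeval`, `pAct_dvd`, `pAct_prime`, `pAct_neg'`).
* `isInv_of_ne`: if `P (act h a b f) = P f ≠ 0` for all `a b` then `P` has finite orbit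
  (`X.finite_support`), so `Inv h P` by `inv_of_finite`.
* For `P` not invariant: `P (y j) = 0` (`act_y`), `P (x i) ≥ 0` (if `P (x i) < 0` then
  `P (x i + a) = P (x i)` for all constants by `DVal.map_add_eq_of_lt`).
* A translate `P'` of `P` avoids the finite bad set of `exists_polyVal`; `P' (x i) ≥ 0`,
  `P' (y j) = 0`, so `P' ≥ 0` on `aeval (coord x y)` of polynomials; the rest of the proof of
  `exists_polyVal` is unchanged; `P = P'.comap (act h (-a) b⁻¹)` and `polyVal_comap'`.
-/

namespace Pool.Agent.Helper92.KN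

open Pool.Agent.Helper92.Weak MvPolynomial

variable {k L : Type*} [Field k] [Field L] [Algebra k L] {r s : ℕ} {x : Fin r → L} {y : Fin s → L}

/-- The translates of the valuation of a prime polynomial. -/
theorem polyVal_comap' (h : IsTorus k (coord x y)) (a : Fin r → k) (b : Fin s → kˣ)
    {p : MvPolynomial (Fin (r + s)) k} (hp : Prime p) :
    (polyVal k h p hp).comap (act h a b) = polyVal k h (pAct (-a) b⁻¹ p) (pAct_prime _ _ hp) := by
  apply DVal.eq_of_ring_le
  intro z hz
  rw [DVal.mem_ring, DVal.comap_apply] at hz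
  have hz' : act h a b z ∈ (polyVal k h p hp).ring := hz
  rw [mem_polyVal_ring] at hz' ⊢
  obtain ⟨u, w, hw, h1⟩ := hz'
  refine ⟨pAct (-a) b⁻¹ u, pAct (-a) b⁻¹ w, ?_, ?_⟩
  · rwa [pAct_dvd]
  · apply (act h a b).injective
    rw [map_div₀, act_aeval, act_aeval, pAct_neg', pAct_neg', h1]

variable [IsAlgClosed k] [CharZero k] {X : ProjVar k L} {h : IsTorus k (coord x y)}

private theorem isInv_of_ne' (hX : Stab X h) {P : DVal k L} (hP : P ∈ X.primeDivisors) {f : L}
    (hf : ∀ (a : Fin r → k) (b : Fin s → kˣ), P (act h a b f) = P f) (hPf : P f ≠ 0) :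
    Inv h P := by
  apply inv_of_finite
  apply (X.finite_support (P.ne_zero_of_pos hPf)).subset
  rintro _ ⟨g, rfl⟩
  refine ⟨hX g.1 g.2 P hP, ?_⟩
  rw [DVal.comap_apply, hf]
  exact hPf

omit [IsAlgClosed k] [CharZero k] in
private theorem comap_y (h : IsTorus k (coord x y)) (P : DVal k L) (a : Fin r → k)
    (b : Fin s → kˣ) (j : Fin s) : P (act h a b (y j)) = P (y j) := by
  rw [act_y, P.map_mul _ (ne_zero_y h j), P.map_const, zero_add]
  simp

omit [IsAlgClosed k] [CharZero k] in
private theorem comap_x (h : IsTorus k (coord x y)) (P : DVal k L) (a : Fin r → k)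
    (b : Fin s → kˣ) (i : Fin r) (hi : P (x i) < 0) : P (act h a b (x i)) = P (x i) := by
  rw [act_x]
  apply P.map_add_eq_of_lt (ne_zero_x h i)
  right
  rw [P.map_const]
  exact hi

/-- Non-invariant prime divisors are given by prime polynomials. -/
theorem exists_polyVal' (hX : Stab X h) {P : DVal k L} (hP : P ∈ X.primeDivisors)
    (hni : ¬ Inv h P) : ∃ (p : MvPolynomial (Fin (r + s)) k) (hp : Prime p),
      P = polyVal k h p hp ∧ ∀ j : Fin s, ¬ p ∣ MvPolynomial.X (Fin.natAdd r j) := by
  classical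
  have hPy0 : ∀ j, P (y j) = 0 := by
    intro j
    by_contra hj
    exact hni (isInv_of_ne' hX hP (fun a b => comap_y h P a b j) hj)
  have hPx0 : ∀ i, 0 ≤ P (x i) := by
    intro i
    by_contra hi
    push Not at hi
    exact hni (isInv_of_ne' hX hP (fun a b => comap_x h P a b i hi) hi.ne)
  have hinf : ¬ (Set.range fun g : (Fin r → k) × (Fin s → kˣ) =>
      P.comap (act h g.1 g.2)).Finite := fun hfin => hni (inv_of_finite h P hfin)
  -- the generators of the chart
  choose a b hb hab using fun j => exists_aeval_div h (X.x j / X.x 0)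
  have hb' : ∀ j, aeval (coord x y) (b j) ≠ 0 := fun j h' => hb j (h.indep (by rw [h', map_zero]))
  have hy : ∀ j, X.x j / X.x 0 ≠ 0 := fun j => div_ne_zero (X.x_ne j) (X.x_ne 0)
  have hE : ((⋃ j, {P' | P' ∈ X.primeDivisors ∧ P' (aeval (coord x y) (b j)) ≠ 0}) ∪
      ⋃ j, {P' | P' ∈ X.primeDivisors ∧ P' (X.x j / X.x 0) ≠ 0}).Finite :=
    (Set.finite_iUnion fun j => X.finite_support (hb' j)).union
      (Set.finite_iUnion fun j => X.finite_support (hy j))
  obtain ⟨c, hc⟩ : ∃ c : (Fin r → k) × (Fin s → kˣ), P.comap (act h c.1 c.2) ∉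
      ((⋃ j, {P' | P' ∈ X.primeDivisors ∧ P' (aeval (coord x y) (b j)) ≠ 0}) ∪
      ⋃ j, {P' | P' ∈ X.primeDivisors ∧ P' (X.x j / X.x 0) ≠ 0}) := by
    by_contra hcon
    push Not at hcon
    apply hinf
    apply hE.subset
    rintro _ ⟨c, rfl⟩
    exact hcon c
  set P' := P.comap (act h c.1 c.2) with hP'
  have hP'X : P' ∈ X.primeDivisors := hX c.1 c.2 P hP
  simp only [Set.mem_union, Set.mem_iUnion, Set.mem_ofPred_eq, not_or, not_exists, not_and,
    not_not] at hc
  have hPb : ∀ j, P' (aeval (coord x y) (b j)) = 0 := fun j => hc.1 j hP'X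
  have hPy : ∀ j, P' (X.x j / X.x 0) = 0 := fun j => hc.2 j hP'X
  have hP'x : ∀ i, 0 ≤ P' (x i) := by
    intro i
    rw [hP', DVal.comap_apply, act_x]
    have h1 : x i ∈ P.ring := hPx0 i
    have h2 : algebraMap k L (c.1 i) ∈ P.ring := by rw [DVal.mem_ring, P.map_const]
    exact P.ring.add_mem h1 h2
  have hP'y : ∀ j, P' (y j) = 0 := by
    intro j
    rw [hP', DVal.comap_apply, comap_y, hPy0]
  have hP'a : ∀ a : MvPolynomial (Fin (r + s)) k, 0 ≤ P' (aeval (coord x y) a) := fun a =>
    aeval_mem (R := P'.ring) (fun a => by rw [DVal.mem_ring, P'.map_const])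
      (fun l => by
        rw [DVal.mem_ring]
        refine Fin.addCases (fun i => ?_) (fun j => ?_) l
        · rw [coord_left]; exact hP'x i
        · rw [coord_right, hP'y]) a
  -- the ring of `P'` is a localisation of the chart
  have hchart : chart k X.x 0 ≤ P'.ring := by
    rw [ProjVar.chart_le_iff]
    intro j
    rw [DVal.mem_ring, hPy]
  have hR : locAt _ (posIdeal P' _ hchart) = P'.ring :=
    X.separated (X.locAt_mem 0 _) hP'X (dominates_posIdeal hchart) (Dominates.refl _)
  -- the prime factor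
  obtain ⟨p, hp, hpp⟩ : ∃ p : MvPolynomial (Fin (r + s)) k, ∃ _ : Prime p, 0 < P' (aeval (coord x y) p) := by
    have key : ∀ a : MvPolynomial (Fin (r + s)) k, P' (aeval (coord x y) a) ≠ 0 →
        ∃ p : MvPolynomial (Fin (r + s)) k, ∃ _ : Prime p, 0 < P' (aeval (coord x y) p) := by
      intro a
      induction a using UniqueFactorizationMonoid.induction_on_prime with
      | h₁ => intro h'; simp at h'
      | h₂ u hu =>
        intro h'
        exfalso
        obtain ⟨w, hw⟩ := isUnit_iff_exists_inv.1 hu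
        have h1 := hP'a u
        have h2 := hP'a w
        have h3 : aeval (coord x y) u * aeval (coord x y) w = (1 : L) := by
          rw [← map_mul, hw, map_one]
        have h4 := P'.map_mul (left_ne_zero_of_mul_eq_one h3) (right_ne_zero_of_mul_eq_one h3)
        rw [h3, P'.map_one] at h4
        omega
      | h₃ u p hu hp ih =>
        intro h'
        by_cases h1 : P' (aeval (coord x y) p) = 0
        · apply ih
          intro h2
          apply h'
          rw [map_mul, P'.map_mul, h1, h2, add_zero]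
          · exact fun h' => hp.ne_zero (h.indep (by rw [h', map_zero]))
          · exact fun h' => hu (h.indep (by rw [h', map_zero]))
        · refine ⟨p, hp, ?_⟩
          have := hP'a p
          omega
    obtain ⟨z, hz⟩ := P'.surj'
    change P' z = 1 at hz
    obtain ⟨u, w, hw, rfl⟩ := exists_aeval_div h z
    have hw' : aeval (coord x y) w ≠ 0 := fun h' => hw (h.indep (by rw [h', map_zero]))
    have hu' : aeval (coord x y) u ≠ 0 := by
      intro h'
      rw [h'] at hz
      simp at hz
    rw [P'.map_div hu' hw'] at hz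
    by_cases h1 : P' (aeval (coord x y) u) = 0
    · exact key w (by omega)
    · exact key u h1
  -- elements with good denominators
  let S : Subalgebra k L :=
    { carrier := {z | ∃ a b : MvPolynomial (Fin (r + s)) k, aeval (coord x y) b ≠ 0 ∧ P' (aeval (coord x y) b) = 0 ∧
        z = aeval (coord x y) a / aeval (coord x y) b}
      mul_mem' := by
        rintro _ _ ⟨a₁, b₁, h1, h2, rfl⟩ ⟨a₂, b₂, h3, h4, rfl⟩
        refine ⟨a₁ * a₂, b₁ * b₂, ?_, ?_, ?_⟩
        · rw [map_mul]; exact mul_ne_zero h1 h3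
        · rw [map_mul, P'.map_mul h1 h3, h2, h4, add_zero]
        · rw [map_mul, map_mul, div_mul_div_comm]
      add_mem' := by
        rintro _ _ ⟨a₁, b₁, h1, h2, rfl⟩ ⟨a₂, b₂, h3, h4, rfl⟩
        refine ⟨a₁ * b₂ + b₁ * a₂, b₁ * b₂, ?_, ?_, ?_⟩
        · rw [map_mul]; exact mul_ne_zero h1 h3
        · rw [map_mul, P'.map_mul h1 h3, h2, h4, add_zero]
        · rw [map_add, map_mul, map_mul, map_mul, div_add_div _ _ h1 h3]
      algebraMap_mem' := fun c => by
        refine ⟨C c, 1, ?_, ?_, ?_⟩
        · rw [map_one]; exact one_ne_zero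
        · rw [map_one, P'.map_one]
        · rw [map_one, div_one, aeval_C] }
  have hchartS : chart k X.x 0 ≤ S := by
    rw [ProjVar.chart_le_iff]
    intro j
    exact ⟨a j, b j, hb' j, hPb j, hab j⟩
  have hSinv : ∀ s ∈ S, s ≠ 0 → P' s = 0 → s⁻¹ ∈ S := by
    rintro s ⟨a, b, h1, h2, rfl⟩ hs0 hs
    have ha : aeval (coord x y) a ≠ 0 := by
      intro h'
      rw [h', zero_div] at hs0
      exact hs0 rfl
    refine ⟨b, a, ha, ?_, inv_div _ _⟩
    rw [P'.map_div ha h1, h2] at hs
    omega
  have hringS : P'.ring ≤ S := by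
    rw [← hR]
    rintro z ⟨w, s, hs, hz⟩
    rw [notMem_posIdeal] at hs
    have h1 : z = w * (s : L)⁻¹ := by
      rw [← hz]
      have := hs.1
      field_simp
    rw [h1]
    exact S.mul_mem (hchartS w.2) (hSinv _ (hchartS s.2) hs.1 hs.2)
  have hSp : S ≤ (polyVal k h p hp).ring := by
    rintro z ⟨a, b, h1, h2, rfl⟩
    rw [mem_polyVal_ring]
    refine ⟨a, b, ?_, rfl⟩
    rintro ⟨d, rfl⟩
    rw [map_mul] at h1 h2
    rw [P'.map_mul (left_ne_zero_of_mul h1) (right_ne_zero_of_mul h1)] at h2
    have := hP'a d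
    omega
  have hP'eq : P' = polyVal k h p hp := DVal.eq_of_ring_le (hringS.trans hSp)
  -- back to `P`
  have hPeq : P = P'.comap (act h (-c.1) c.2⁻¹) := by
    apply DVal.ext
    intro z
    rw [hP', DVal.comap_apply, DVal.comap_apply, act_act, add_neg_cancel, mul_inv_cancel,
      act_zero]
  rw [hP'eq, polyVal_comap'] at hPeq
  refine ⟨_, _, hPeq, fun j hj => ?_⟩
  have h1 := (polyVal_pos_iff k h (pAct_prime (-(-c.1)) (c.2⁻¹)⁻¹ hp)
    (MvPolynomial.X_ne_zero (Fin.natAdd r j))).2 hj
  rw [aeval_X, ← hPeq, coord_right, hPy0] at h1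
  exact lt_irrefl _ h1


end Pool.Agent.Helper92.KN
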