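import Pool.Agent.Helper92.KN.Prime

set_option autoImplicit false

/-!
# Project KN, geometry, module G2: prime polynomials other than the `y_j` give prime divisors

PROOF = adaptation of `Pool/Agent/Helper92/Weak/Torus4.lean` (`polyVal_not_inv`) and `Torus6.lean`
(`polyVal_mem`) with `K = k`, `t = coord x y`, `scale` replaced by `act`.
* `polyVal_not_inv'`: let `P = polyVal k h p hp` be invariant. `P (y j) = 0` for all `j`
  (`polyVal_t`). `exists_lev_eq` gives `f` with `lev x y f = aeval (coord x y) p`, `f ≠ 0`;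
  `P (lev f) = 1` (`polyVal_self`); `Inv.ge_lev` with `n = 1` and `f u ≠ 0` gives
  `1 ≤ P (aeval x (f u))`, contradiction to `PVal.nonpos (pval h P hP)` (Helper93/KN/Deriv.lean).
* `polyVal_mem'`: verbatim `polyVal_mem` (a generic translate `P'` of `P` has `P' (d (coord l)) = 0`
  and `P' (X.x j / X.x 0) = 0`; `hRK` is trivial since `K = k`).
-/

namespace Pool.Agent.Helper92.KN

open Pool.Agent.Helper92.Weak MvPolynomial

variable {k L : Type*} [Field k] [Field L] [Algebra k L] {r s : ℕ} {x : Fin r → L} {y : Fin s → L}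

theorem polyVal_not_inv' [CharZero k] (h : IsTorus k (coord x y))
    {p : MvPolynomial (Fin (r + s)) k} (hp : Prime p)
    (hi : ∀ j : Fin s, ¬ p ∣ MvPolynomial.X (Fin.natAdd r j)) : ¬ Inv h (polyVal k h p hp) := by
  intro hI
  obtain ⟨f, hf⟩ := exists_lev_eq h p
  have hf0 : f ≠ 0 := by
    rintro rfl
    rw [map_zero] at hf
    exact hp.ne_zero (h.indep (by rw [← hf, map_zero]))
  obtain ⟨u, hu⟩ := Finsupp.ne_iff.1 hf0
  have hu' : f u ≠ 0 := hu
  have hy : ∀ j, polyVal k h p hp (y j) = 0 := by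
    intro j
    have h1 := polyVal_t k h hp (hi j)
    rwa [coord_right] at h1
  have h1 := (hI.ge_lev 1 f).1 (Or.inr (by rw [hf, polyVal_self]; norm_num)) u hu'
  have h2 : ipair (fun j => polyVal k h p hp (y j)) u = 0 := by
    unfold ipair
    apply Finset.sum_eq_zero
    intro l _
    show u l * polyVal k h p hp (y l) = 0
    rw [hy l, mul_zero]
  rw [h2] at h1
  have h3 := Pool.Agent.Helper93.KN.PVal.nonpos (pval h (polyVal k h p hp) hI) hu'
  rw [pval_apply] at h3
  have h4 : ((polyVal k h p hp (aeval x (f u)) : ℤ) : ℚ) ≤ 0 := by exact_mod_cast h3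
  push_cast at h1
  linarith

variable [IsAlgClosed k] [CharZero k] {X : ProjVar k L} {h : IsTorus k (coord x y)}

theorem polyVal_mem' (hX : Stab X h) {p : MvPolynomial (Fin (r + s)) k} (hp : Prime p)
    (hi : ∀ j : Fin s, ¬ p ∣ MvPolynomial.X (Fin.natAdd r j)) :
    polyVal k h p hp ∈ X.primeDivisors := by
  classical
  set P := polyVal k h p hp with hP
  have hinf : ¬ (Set.range fun g : (Fin r → k) × (Fin s → kˣ) =>
      P.comap (act h g.1 g.2)).Finite := fun hfin =>
    polyVal_not_inv' h hp hi (inv_of_finite h P hfin)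
  -- denominators
  have hden : ∀ z : L, ∃ b : L, b ≠ 0 ∧ b ∈ chart k X.x 0 ∧ z * b ∈ chart k X.x 0 := by
    intro z
    obtain ⟨a, ha, b, hb, hb0, rfl⟩ := X.chart_isFrac 0 z
    refine ⟨b, hb0, hb, ?_⟩
    rw [div_mul_cancel₀ _ hb0]
    exact ha
  choose d hd0 hd hzd using hden
  have hy : ∀ j, X.x j / X.x 0 ≠ 0 := fun j => div_ne_zero (X.x_ne j) (X.x_ne 0)
  have hE : ((⋃ i, {v : DVal k L |
        (∃ (p : MvPolynomial (Fin (r + s)) k) (hp : Prime p), v = polyVal k h p hp) ∧
          v (d (coord x y i)) ≠ 0}) ∪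
      ⋃ j, {v : DVal k L |
        (∃ (p : MvPolynomial (Fin (r + s)) k) (hp : Prime p), v = polyVal k h p hp) ∧
          v (X.x j / X.x 0) ≠ 0}).Finite :=
    (Set.finite_iUnion fun i => finite_polyVal h (hd0 _)).union
      (Set.finite_iUnion fun j => finite_polyVal h (hy j))
  obtain ⟨⟨a, b⟩, hc⟩ : ∃ g : (Fin r → k) × (Fin s → kˣ), P.comap (act h g.1 g.2) ∉
      ((⋃ i, {v : DVal k L |
        (∃ (p : MvPolynomial (Fin (r + s)) k) (hp : Prime p), v = polyVal k h p hp) ∧
          v (d (coord x y i)) ≠ 0}) ∪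
      ⋃ j, {v : DVal k L |
        (∃ (p : MvPolynomial (Fin (r + s)) k) (hp : Prime p), v = polyVal k h p hp) ∧
          v (X.x j / X.x 0) ≠ 0}) := by
    by_contra hcon
    push Not at hcon
    apply hinf
    apply hE.subset
    rintro _ ⟨c, rfl⟩
    exact hcon c
  obtain ⟨p', hp', hPp'⟩ : ∃ (p' : MvPolynomial (Fin (r + s)) k) (hp' : Prime p'),
      P.comap (act h a b) = polyVal k h p' hp' := ⟨_, _, polyVal_comap' h a b hp⟩
  have hc' : P.comap (act h a b) ∉ _ := hc
  rw [hPp'] at hc'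
  set P' := polyVal k h p' hp' with hP'
  simp only [Set.mem_union, Set.mem_iUnion, Set.mem_ofPred_eq, not_or, not_exists, not_and,
    not_not] at hc'
  obtain ⟨hc2, hc3⟩ := hc'
  have hex : ∃ (p : MvPolynomial (Fin (r + s)) k) (hp : Prime p), P' = polyVal k h p hp :=
    ⟨p', hp', rfl⟩
  have hchart : chart k X.x 0 ≤ P'.ring := by
    rw [ProjVar.chart_le_iff]
    intro j
    rw [DVal.mem_ring, hc3 j hex]
  set R := locAt _ (posIdeal P' _ hchart) with hR
  have hdom : Dominates R P'.ring := dominates_posIdeal hchart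
  have hmem : ∀ z : L, P' (d z) = 0 → z ∈ R := by
    intro z hz
    have h1 : z = (z * d z) * (d z)⁻¹ := by
      have := hd0 z
      field_simp
    rw [h1]
    exact R.mul_mem (le_locAt _ (hzd z)) (hdom.inv_mem (le_locAt _ (hd z)) hz)
  have hRt : ∀ i, coord x y i ∈ R := fun i => hmem _ (hc2 i hex)
  have hRK : ∀ a : k, algebraMap k L a ∈ R := fun a => R.algebraMap_mem a
  have hRp : P'.ring ≤ R := by
    intro z hz
    rw [mem_polyVal_ring] at hz
    obtain ⟨a, b, hb, rfl⟩ := hz
    rw [div_eq_mul_inv]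
    exact R.mul_mem (aeval_mem hRK hRt a)
      (hdom.inv_mem (aeval_mem hRK hRt b) (polyVal_eq_zero k h hp' hb))
  have hP'X : P' ∈ X.primeDivisors := by
    change P'.ring ∈ X.localRings
    rw [le_antisymm hRp hdom.1]
    exact X.locAt_mem 0 _
  have hPeq : P = P'.comap (act h (-a) b⁻¹) := by
    rw [← hPp', comap_comap, add_neg_cancel, mul_inv_cancel, comap_zero]
  rw [hPeq]
  exact hX _ _ _ hP'X

end Pool.Agent.Helper92.KN
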