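import Pool.Agent.Helper92.KN.Deg
import Pool.Agent.Helper92.KN.PrimeConv
import Pool.Agent.Helper93.KN.Defs
import Pool.Agent.Helper92.Weak.Values

set_option autoImplicit false

/-!
# Project KN, geometry: sections of divisors supported on the boundary
-/

namespace Pool.Agent.Helper92.KN

open Pool.Agent.Helper92.Weak MvPolynomial
open Pool.Agent.Helper93.KN (PVal BData IsGroupCompactification)

variable {k L : Type*} [Field k] [Field L] [Algebra k L] {r s : ℕ} {x : Fin r → L} {y : Fin s → L}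

/-- A polynomial whose prime factors are the `y_j` is a monomial. -/
lemma exists_mono_of_factors (h : IsTorus k (coord x y)) (b : MvPolynomial (Fin (r + s)) k)
    (hb0 : b ≠ 0)
    (hb : ∀ p, Prime p → p ∣ b → ∃ j : Fin s, p ∣ MvPolynomial.X (Fin.natAdd r j)) :
    ∃ (c : k) (u : Fin s → ℤ), c ≠ 0 ∧ aeval (coord x y) b = c • mono y u := by
  induction b using UniqueFactorizationMonoid.induction_on_prime with
  | h₁ => exact absurd rfl hb0
  | h₂ q hq =>
    obtain ⟨c, hc, rfl⟩ := MvPolynomial.isUnit_iff_eq_C_of_isReduced.1 hq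
    refine ⟨c, 0, hc.ne_zero, ?_⟩
    rw [mono_zero, aeval_C, Algebra.algebraMap_eq_smul_one]
  | h₃ q p hq hp ih =>
    obtain ⟨c, u, hc, hcu⟩ := ih hq (fun q' hq' hqx => hb q' hq' (hqx.mul_left p))
    obtain ⟨j, hj⟩ := hb p hp (dvd_mul_right p q)
    have hXj : Prime (MvPolynomial.X (Fin.natAdd r j) : MvPolynomial (Fin (r + s)) k) :=
      MvPolynomial.X_prime
    obtain ⟨w, hw⟩ := ((hp.dvd_prime_iff_associated hXj).1 hj).symm
    obtain ⟨d, hd, hwd⟩ := MvPolynomial.isUnit_iff_eq_C_of_isReduced.1 w.isUnit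
    refine ⟨c * d, u + Pi.single j 1, mul_ne_zero hc hd.ne_zero, ?_⟩
    rw [map_mul, hcu, ← hw, hwd, map_mul, aeval_X, aeval_C, mono_add (ne_zero_y h), mono_single,
      coord_right]
    rw [Algebra.smul_def, Algebra.smul_def, map_mul]
    ring

variable [IsAlgClosed k] [CharZero k] {X : ProjVar k L} {h : IsTorus k (coord x y)}

/-- Functions without poles outside the boundary are Laurent polynomials. -/
theorem exists_lev_of_nonneg (hX : Stab X h) {z : L}
    (hz : ∀ P ∈ X.primeDivisors, ¬ Inv h P → 0 ≤ P z) :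
    ∃ f : (Fin s → ℤ) →₀ MvPolynomial (Fin r) k, lev x y f = z := by
  obtain ⟨a, b, hb, hab, rfl⟩ := exists_reduced h z
  have hb' : aeval (coord x y) b ≠ 0 := fun h0 => hb (h.indep (by rw [h0, map_zero]))
  by_cases ha : a = 0
  · refine ⟨0, ?_⟩
    rw [ha]; simp
  have ha' : aeval (coord x y) a ≠ 0 := fun h0 => ha (h.indep (by rw [h0, map_zero]))
  obtain ⟨c, u, hc, hcu⟩ := exists_mono_of_factors h b hb (by
    intro p hp hpb
    by_contra hcon
    push Not at hcon
    have h1 := hz _ (polyVal_mem' hX hp hcon) (polyVal_not_inv' h hp hcon)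
    rw [DVal.map_div _ ha' hb'] at h1
    have h2 := (polyVal_pos_iff k h hp hb).2 hpb
    have h3 : ¬ p ∣ a := fun h0 => hp.not_isUnit (hab h0 hpb)
    rw [polyVal_eq_zero k h hp h3] at h1
    omega)
  obtain ⟨f, hf⟩ := exists_lev_eq h a
  obtain ⟨g, hg⟩ := exists_lev_mul h f (C c⁻¹) (-u)
  refine ⟨g, ?_⟩
  rw [hg, hf, hcu, mono_neg, Algebra.smul_def, aeval_C, map_inv₀, div_eq_mul_inv, mul_inv]

/-- Laurent polynomials have no poles outside the boundary. -/
theorem lev_nonneg (hX : Stab X h) {P : DVal k L} (hP : P ∈ X.primeDivisors) (hni : ¬ Inv h P)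
    (f : (Fin s → ℤ) →₀ MvPolynomial (Fin r) k) : P.Ge 0 (lev x y f) := by
  obtain ⟨p, hp, rfl, hi⟩ := exists_polyVal' hX hP hni
  rw [lev_apply]
  apply DVal.Ge.sum
  intro u _
  have h1 : (polyVal k h p hp).Ge 0 (aeval x (f u)) := by
    right
    rw [← aeval_inX (y := y)]
    exact_mod_cast polyVal_nonneg k h hp _
  have h2 : (polyVal k h p hp).Ge 0 (mono y u) := by
    right
    rw [val_mono h]
    have h3 : (fun j => (polyVal k h p hp) (y j)) = 0 := by
      funext j
      have := polyVal_t k h hp (hi j)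
      rwa [coord_right] at this
    rw [h3]
    simp [ipair]
  simpa using h1.mul h2

/-- The boundary divisors. -/
abbrev Bd (X : ProjVar k L) (h : IsTorus k (coord x y)) : Type _ :=
  {P : X.primeDivisors // Inv h P.1}

noncomputable instance (X : ProjVar k L) (h : IsTorus k (coord x y)) : Fintype (Bd X h) :=
  (finite_inv X h).fintype

/-- The combinatorial data of the boundary. -/
noncomputable def bdata (hX : Stab X h) : BData k r s (Bd X h) where
  v P := pval h P.1.1 P.2
  w P j := P.1.1 (y j)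
  complete u hu := complete_inv hX u fun P hP hInv => hu ⟨⟨P, hP⟩, hInv⟩
  C := (deg_bound hX).choose
  deg_le T f hf := (deg_bound hX).choose_spec T f fun P hP hInv => by
    rcases hf ⟨⟨P, hP⟩, hInv⟩ with h1 | h1
    · left; rw [h1, map_zero]
    · right; exact h1

/-- Sections. -/
theorem lev_mem_iff (hX : Stab X h) {D : X.Div} (hD : ∀ P, ¬ Inv h P.1 → D P = 0)
    (f : (Fin s → ℤ) →₀ MvPolynomial (Fin r) k) :
    lev x y f ∈ X.H0 D ↔ f ∈ (bdata hX).sec (fun P => D P.1) := by
  unfold ProjVar.H0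
  rw [mem_sec, BData.mem_sec]
  constructor
  · intro hf u P
    have h1 := hf P.1
    rw [P.2.ge_lev] at h1
    by_cases hu : f u = 0
    · left; exact hu
    · right
      have h2 := h1 u hu
      rw [ipair_cast] at h2
      change -(D P.1) - pairL (fun j => P.1.1 (y j)) (fun l => (u l : ℚ)) ≤
        (P.1.1 (aeval x (f u)) : ℤ)
      linarith
  · intro hf P
    by_cases hP : Inv h P.1
    · rw [hP.ge_lev]
      intro u hu
      rcases hf u ⟨P, hP⟩ with h1 | h1
      · exact absurd h1 hu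
      · rw [ipair_cast]
        change -(D P) - pairL (fun j => P.1 (y j)) (fun l => (u l : ℚ)) ≤
          (P.1 (aeval x (f u)) : ℤ) at h1
        linarith
    · rw [hD P hP, neg_zero]
      exact lev_nonneg hX P.2 hP f

theorem sdim_H0 (hX : Stab X h) {D : X.Div} (hD : ∀ P, ¬ Inv h P.1 → D P = 0) :
    sdim (X.H0 D) = sdim ((bdata hX).sec (fun P => D P.1)) := by
  have h1 : X.H0 D = ((bdata hX).sec (fun P => D P.1)).map (lev x y) := by
    ext z
    rw [Submodule.mem_map]
    constructor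
    · intro hz
      obtain ⟨f, rfl⟩ := exists_lev_of_nonneg hX (z := z) (by
        intro P hP hni
        unfold ProjVar.H0 at hz
        rw [mem_sec] at hz
        have h2 := hz ⟨P, hP⟩
        rw [hD _ hni, neg_zero, ← DVal.mem_ring_iff_ge] at h2
        exact h2)
      exact ⟨f, (lev_mem_iff hX hD f).1 hz, rfl⟩
    · rintro ⟨f, hf, rfl⟩
      exact (lev_mem_iff hX hD f).2 hf
  rw [h1]
  exact (sdim_eq_of_equiv
    (Submodule.equivMapOfInjective (lev x y) (lev_injective h) _)).symm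

/-- A function with prescribed divisor on the group. -/
theorem exists_prime_fun (hX : Stab X h) (Q : X.primeDivisors) (hQ : ¬ Inv h Q.1) :
    ∃ φ : L, φ ≠ 0 ∧ Q.1 φ = 1 ∧ ∀ P : X.primeDivisors, ¬ Inv h P.1 → P ≠ Q → P.1 φ = 0 := by
  obtain ⟨q, hq, hQq, -⟩ := exists_polyVal' hX Q.2 hQ
  refine ⟨aeval (coord x y) q, fun h0 => hq.ne_zero (h.indep (by rw [h0, map_zero])), ?_, ?_⟩
  · rw [hQq]
    exact polyVal_self k h hq
  · intro P hP hPQ
    obtain ⟨p, hp, hPp, -⟩ := exists_polyVal' hX P.2 hP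
    rw [hPp]
    apply polyVal_eq_zero k h hp
    intro hpq
    apply hPQ
    apply Subtype.ext
    rw [hPp, hQq]
    exact (polyVal_eq_of_associated h hq hp hpq).symm

/-- Every integral divisor is linearly equivalent to one supported on the boundary. -/
theorem exists_add_prin (hX : Stab X h) (E : X.Div) (hE : X.IsInt E) :
    ∃ ψ : L, ψ ≠ 0 ∧ ∀ P, ¬ Inv h P.1 → (E + X.prin ψ) P = 0 := by
  classical
  have hφ : ∀ Q : X.primeDivisors, ∃ φ : L, φ ≠ 0 ∧ (¬ Inv h Q.1 → Q.1 φ = 1) ∧
      (¬ Inv h Q.1 → ∀ P : X.primeDivisors, ¬ Inv h P.1 → P ≠ Q → P.1 φ = 0) := by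
    intro Q
    by_cases hQ : Inv h Q.1
    · exact ⟨1, one_ne_zero, fun h0 => absurd hQ h0, fun h0 => absurd hQ h0⟩
    · obtain ⟨φ, h1, h2, h3⟩ := exists_prime_fun hX Q hQ
      exact ⟨φ, h1, fun _ => h2, fun _ => h3⟩
  choose φ hφ0 hφ1 hφ2 using hφ
  choose n hn using hE
  set S := E.support.filter fun Q => ¬ Inv h Q.1 with hS
  refine ⟨∏ Q ∈ S, φ Q ^ (-(n Q)), Finset.prod_ne_zero_iff.2 fun Q _ =>
    zpow_ne_zero _ (hφ0 Q), ?_⟩
  intro P hP
  rw [Finsupp.add_apply, ProjVar.prin_apply, DVal.map_prod _ _ _ fun Q _ =>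
    zpow_ne_zero _ (hφ0 Q)]
  have h1 : ∑ Q ∈ S, P.1 (φ Q ^ (-(n Q))) = -(n P) := by
    by_cases hPS : P ∈ S
    · rw [Finset.sum_eq_single P]
      · rw [DVal.map_zpow, hφ1 P hP, mul_one]
      · intro Q hQ hQP
        rw [hS, Finset.mem_filter] at hQ
        rw [DVal.map_zpow, hφ2 Q hQ.2 P hP hQP.symm, mul_zero]
      · intro h0
        exact absurd hPS h0
    · have h2 : E P = 0 := by
        by_contra h3
        apply hPS
        rw [hS, Finset.mem_filter, Finsupp.mem_support_iff]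
        exact ⟨h3, hP⟩
      have h3 : n P = 0 := by
        have := hn P
        rw [h2] at this
        exact_mod_cast this.symm
      rw [h3, neg_zero]
      apply Finset.sum_eq_zero
      intro Q hQ
      have hQP : P ≠ Q := by
        rintro rfl
        exact hPS hQ
      rw [hS, Finset.mem_filter] at hQ
      rw [DVal.map_zpow, hφ2 Q hQ.2 P hP hQP, mul_zero]
  rw [h1, hn P]
  push_cast
  ring

end Pool.Agent.Helper92.KN
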