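import Pool.Agent.Helper92.KN.Base
import Pool.Agent.Helper92.Weak.Torus6
import Pool.Agent.Helper93.KN.Deriv

set_option autoImplicit false

/-!
# Project KN, geometry: Laurent polynomials in `y` with coefficients in `k[x]`
-/

namespace Pool.Agent.Helper92.KN

open Pool.Agent.Helper92.Weak MvPolynomial
open Pool.Agent.Helper93.KN (PVal BData)

variable {k L : Type*} [Field k] [Field L] [Algebra k L] {r s : ℕ}

/-- The element `∑ f_u(x) y^u` of `L`. -/
noncomputable def lev (x : Fin r → L) (y : Fin s → L) :
    ((Fin s → ℤ) →₀ MvPolynomial (Fin r) k) →ₗ[k] L :=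
  Finsupp.lsum k fun u => (LinearMap.mulRight k (mono y u)).comp (aeval x).toLinearMap

section

variable {x : Fin r → L} {y : Fin s → L}

lemma lev_apply (f : (Fin s → ℤ) →₀ MvPolynomial (Fin r) k) :
    lev x y f = ∑ u ∈ f.support, aeval x (f u) * mono y u := by
  unfold lev
  rw [Finsupp.lsum_apply]
  rfl

lemma lev_single (u : Fin s → ℤ) (c : MvPolynomial (Fin r) k) :
    lev x y (Finsupp.single u c) = aeval x c * mono y u := by
  unfold lev
  rw [Finsupp.lsum_single]
  rfl

lemma ne_zero_x (h : IsTorus k (coord x y)) (i : Fin r) : x i ≠ 0 := by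
  have := h.ne_zero (Fin.castAdd s i)
  rwa [coord_left] at this

lemma ne_zero_y (h : IsTorus k (coord x y)) (j : Fin s) : y j ≠ 0 := by
  have := h.ne_zero (Fin.natAdd r j)
  rwa [coord_right] at this

/-- Polynomials in the `x_i` as polynomials in all variables. -/
noncomputable def inX (r s : ℕ) (k : Type*) [Field k] :
    MvPolynomial (Fin r) k →ₐ[k] MvPolynomial (Fin (r + s)) k :=
  rename (Fin.castAdd s)

lemma aeval_inX (p : MvPolynomial (Fin r) k) :
    aeval (coord x y) (inX r s k p) = aeval x p := by
  unfold inX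
  rw [aeval_rename]
  congr 2
  funext i
  simp

lemma aeval_x_injective (h : IsTorus k (coord x y)) :
    Function.Injective (aeval x : MvPolynomial (Fin r) k →ₐ[k] L) := by
  intro p q hpq
  have h1 : inX r s k p = inX r s k q := h.indep (by
    change aeval (coord x y) _ = aeval (coord x y) _
    rw [aeval_inX, aeval_inX, hpq])
  exact rename_injective _ (Fin.castAdd_injective r s) h1

lemma aeval_x_ne (h : IsTorus k (coord x y)) {p : MvPolynomial (Fin r) k} (hp : p ≠ 0) :
    aeval x p ≠ 0 := fun h0 => hp (aeval_x_injective h (by rw [h0, map_zero]))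

lemma act_term (h : IsTorus k (coord x y)) (b : Fin s → kˣ) (p : MvPolynomial (Fin r) k)
    (u : Fin s → ℤ) : act h 0 b (aeval x p * mono y u) =
      ((chi b u : kˣ) : k) • (aeval x p * mono y u) := by
  have hz : (aeval (fun i => X i + C ((0 : Fin r → k) i)) p : MvPolynomial (Fin r) k) = p := by
    have h1 : (aeval (fun i => X i + C ((0 : Fin r → k) i)) :
        MvPolynomial (Fin r) k →ₐ[k] MvPolynomial (Fin r) k) = AlgHom.id k _ := by
      apply MvPolynomial.algHom_ext
      intro i
      simp
    rw [h1]
    rfl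
  rw [map_mul, act_aeval_x, act_mono, hz, Algebra.smul_def]
  ring

/-- A subspace stable under the torus contains all terms of its elements. -/
theorem term_mem [CharZero k] (h : IsTorus k (coord x y)) (V : Submodule k L)
    (hV : ∀ b : Fin s → kˣ, ∀ z ∈ V, act h 0 b z ∈ V) :
    ∀ (f : (Fin s → ℤ) →₀ MvPolynomial (Fin r) k), lev x y f ∈ V →
      ∀ u, aeval x (f u) * mono y u ∈ V := by
  classical
  have key : ∀ (n : ℕ) (f : (Fin s → ℤ) →₀ MvPolynomial (Fin r) k), f.support.card ≤ n →
      lev x y f ∈ V → ∀ u, f u ≠ 0 → aeval x (f u) * mono y u ∈ V := by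
    intro n
    induction n with
    | zero =>
      intro f hf _ u hu
      have : f.support = ∅ := Finset.card_eq_zero.1 (Nat.le_zero.1 hf)
      rw [Finsupp.support_eq_empty] at this
      rw [this] at hu
      exact absurd rfl hu
    | succ n ih =>
      intro f hf hm u hu
      by_cases hsing : f.support = {u}
      · have h1 : lev x y f = aeval x (f u) * mono y u := by
          rw [lev_apply, hsing, Finset.sum_singleton]
        rwa [h1] at hm
      obtain ⟨u', hu', hne⟩ : ∃ u', f u' ≠ 0 ∧ u' ≠ u := by
        by_contra hcon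
        push Not at hcon
        apply hsing
        ext w
        rw [Finsupp.mem_support_iff, Finset.mem_singleton]
        exact ⟨fun h => hcon w h, fun h => h ▸ hu⟩
      obtain ⟨l, hl⟩ : ∃ l, u' l ≠ u l := by
        by_contra hcon
        push Not at hcon
        exact hne (funext hcon)
      set c : Fin s → kˣ := Pi.mulSingle l (Units.mk0 (2 : k) two_ne_zero) with hc
      have hchi : ∀ w : Fin s → ℤ, ((chi c w : kˣ) : k) = (2 : k) ^ w l := by
        intro w
        unfold chi
        rw [Finset.prod_eq_single l]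
        · rw [hc, Pi.mulSingle_eq_same, Units.val_zpow_eq_zpow_val]
          rfl
        · intro j _ hj
          rw [hc, Pi.mulSingle_eq_of_ne hj, one_zpow]
        · simp
      have hchi' : ((chi c u : kˣ) : k) ≠ ((chi c u' : kˣ) : k) := by
        rw [hchi, hchi]
        intro h
        have h2 : ((2 : ℚ) ^ u l : ℚ) = (2 : ℚ) ^ u' l := by
          have h3 : (((2 : ℚ) ^ u l : ℚ) : k) = (((2 : ℚ) ^ u' l : ℚ) : k) := by
            push_cast
            exact h
          exact_mod_cast h3
        have h4 := zpow_right_injective₀ (by norm_num : (0 : ℚ) < 2) (by norm_num) h2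
        exact hl h4.symm
      set g : (Fin s → ℤ) →₀ MvPolynomial (Fin r) k := Finsupp.onFinset f.support
        (fun w => ((chi c w : kˣ) - (chi c u' : kˣ) : k) • f w)
        (fun w hw => Finsupp.mem_support_iff.2 (right_ne_zero_of_smul hw)) with hg
      have hgx : ∀ w, g w = ((chi c w : kˣ) - (chi c u' : kˣ) : k) • f w := fun w => rfl
      have hevg : lev x y g = act h 0 c (lev x y f) - ((chi c u' : kˣ) : k) • lev x y f := by
        have h1 : lev x y g = ∑ w ∈ f.support, aeval x (g w) * mono y w := by
          rw [lev_apply]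
          apply Finset.sum_subset Finsupp.support_onFinset_subset
          intro w _ hw
          rw [Finsupp.notMem_support_iff.1 hw, map_zero, zero_mul]
        rw [h1, lev_apply, map_sum, Finset.smul_sum, ← Finset.sum_sub_distrib]
        refine Finset.sum_congr rfl fun w _ => ?_
        rw [act_term, hgx, map_smul, smul_mul_assoc, sub_smul]
      have hgm : lev x y g ∈ V := by
        rw [hevg]
        exact V.sub_mem (hV c _ hm) (V.smul_mem _ hm)
      have hgcard : g.support.card ≤ n := by
        have h1 : g.support ⊆ f.support.erase u' := by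
          intro w hw
          rw [Finsupp.mem_support_iff, hgx] at hw
          rw [Finset.mem_erase, Finsupp.mem_support_iff]
          refine ⟨?_, right_ne_zero_of_smul hw⟩
          rintro rfl
          simp at hw
        have h2 := Finset.card_le_card h1
        rw [Finset.card_erase_of_mem (Finsupp.mem_support_iff.2 hu')] at h2
        omega
      have hcu : ((chi c u : kˣ) : k) - (chi c u' : kˣ) ≠ 0 := sub_ne_zero.2 hchi'
      have hgu : g u ≠ 0 := by
        rw [hgx]
        exact smul_ne_zero hcu hu
      have h1 := ih g hgcard hgm u hgu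
      rw [hgx, map_smul, smul_mul_assoc] at h1
      have h3 := V.smul_mem ((((chi c u : kˣ) : k) - (chi c u' : kˣ))⁻¹) h1
      rwa [smul_smul, inv_mul_cancel₀ hcu, one_smul] at h3
  intro f hf u
  by_cases hu : f u = 0
  · rw [hu, map_zero, zero_mul]
    exact V.zero_mem
  · exact key f.support.card f le_rfl hf u hu

lemma lev_injective [CharZero k] (h : IsTorus k (coord x y)) :
    Function.Injective (lev x y : _ →ₗ[k] L) := by
  rw [injective_iff_map_eq_zero]
  intro f hf
  have h1 := term_mem h ⊥ (by
    intro b z hz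
    rw [Submodule.mem_bot] at hz ⊢
    rw [hz, map_zero]) f (by rw [hf]; exact Submodule.zero_mem _)
  ext1 u
  have h2 := h1 u
  rw [Submodule.mem_bot] at h2
  rcases mul_eq_zero.1 h2 with h3 | h3
  · by_contra h4
    exact aeval_x_ne h h4 h3
  · exact absurd h3 (mono_ne_zero (ne_zero_y h) u)

/-- Multiplication by a term. -/
lemma exists_lev_mul (h : IsTorus k (coord x y)) (f : (Fin s → ℤ) →₀ MvPolynomial (Fin r) k)
    (q : MvPolynomial (Fin r) k) (u₀ : Fin s → ℤ) :
    ∃ g : (Fin s → ℤ) →₀ MvPolynomial (Fin r) k,
      lev x y g = lev x y f * (aeval x q * mono y u₀) := by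
  classical
  refine ⟨∑ u ∈ f.support, Finsupp.single (u + u₀) (f u * q), ?_⟩
  rw [map_sum, lev_apply, Finset.sum_mul]
  refine Finset.sum_congr rfl fun u _ => ?_
  rw [lev_single, map_mul, mono_add (ne_zero_y h)]
  ring

lemma exists_lev_eq (h : IsTorus k (coord x y)) (p : MvPolynomial (Fin (r + s)) k) :
    ∃ f : (Fin s → ℤ) →₀ MvPolynomial (Fin r) k, lev x y f = aeval (coord x y) p := by
  induction p using MvPolynomial.induction_on with
  | C a =>
    refine ⟨Finsupp.single 0 (C a), ?_⟩
    rw [lev_single, mono_zero, mul_one, aeval_C, aeval_C]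
  | add p q hp hq =>
    obtain ⟨f, hf⟩ := hp
    obtain ⟨g, hg⟩ := hq
    exact ⟨f + g, by rw [map_add, map_add, hf, hg]⟩
  | mul_X p l hp =>
    obtain ⟨f, hf⟩ := hp
    rw [map_mul, aeval_X, ← hf]
    refine Fin.addCases (fun i => ?_) (fun j => ?_) l
    · obtain ⟨g, hg⟩ := exists_lev_mul h f (X i) 0
      exact ⟨g, by rw [hg, coord_left, aeval_X, mono_zero, mul_one]⟩
    · obtain ⟨g, hg⟩ := exists_lev_mul h f 1 (Pi.single j 1)
      exact ⟨g, by rw [hg, coord_right, map_one, one_mul, mono_single]⟩

/-- The value of a monomial in `y`. -/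
lemma val_mono (h : IsTorus k (coord x y)) (P : DVal k L) (u : Fin s → ℤ) :
    P (mono y u) = ipair (fun j => P (y j)) u := by
  unfold mono ipair
  rw [P.map_prod _ _ fun l _ => zpow_ne_zero _ (ne_zero_y h l)]
  exact Finset.sum_congr rfl fun l _ => P.map_zpow _ _

lemma val_term (h : IsTorus k (coord x y)) (P : DVal k L) {p : MvPolynomial (Fin r) k}
    (hp : p ≠ 0) (u : Fin s → ℤ) :
    P (aeval x p * mono y u) = P (aeval x p) + ipair (fun j => P (y j)) u := by
  rw [P.map_mul (aeval_x_ne h hp) (mono_ne_zero (ne_zero_y h) u), val_mono h]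

/-- The values of an invariant valuation on Laurent polynomials. -/
theorem Inv.ge_lev [CharZero k] {h : IsTorus k (coord x y)} {P : DVal k L} (hP : Inv h P)
    (n : ℚ) (f : (Fin s → ℤ) →₀ MvPolynomial (Fin r) k) :
    P.Ge n (lev x y f) ↔ ∀ u, f u ≠ 0 → n ≤ P (aeval x (f u)) + ipair (fun j => P (y j)) u := by
  constructor
  · intro hf u hu
    have h1 := term_mem h (P.filt n) (by
      intro b z hz
      rw [DVal.mem_filt] at hz ⊢
      rcases hz with hz | hz
      · left; rw [hz, map_zero]
      · right; rwa [hP.apply]) f hf u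
    rw [DVal.mem_filt, DVal.ge_iff (mul_ne_zero (aeval_x_ne h hu) (mono_ne_zero (ne_zero_y h) u)),
      val_term h P hu] at h1
    exact_mod_cast h1
  · intro hf
    rw [lev_apply]
    apply DVal.Ge.sum
    intro u hu
    have hu' : f u ≠ 0 := Finsupp.mem_support_iff.1 hu
    right
    rw [val_term h P hu']
    exact_mod_cast hf u hu'

/-- The valuation on `k[x]` of an invariant valuation. -/
noncomputable def pval (h : IsTorus k (coord x y)) (P : DVal k L) (hP : Inv h P) :
    PVal k (Fin r) where
  toFun f := P (aeval x f)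
  map_zero' := by simp
  map_mul' f g hf hg := by
    rw [map_mul, P.map_mul (aeval_x_ne h hf) (aeval_x_ne h hg)]
  map_add' f g hf hg hfg := by
    rw [map_add]
    apply P.map_add' _ _ (aeval_x_ne h hf) (aeval_x_ne h hg)
    rw [← map_add]
    exact aeval_x_ne h hfg
  map_C' c := by
    rw [aeval_C]
    simp
  map_shift' a f := by
    have h1 := hP.apply a 1 (aeval x f)
    rw [act_aeval_x] at h1
    exact h1

lemma pval_apply (h : IsTorus k (coord x y)) (P : DVal k L) (hP : Inv h P)
    (f : MvPolynomial (Fin r) k) : pval h P hP f = P (aeval x f) := rfl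

end

end Pool.Agent.Helper92.KN
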